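import Pool.Agent.Helper60.Unc.Avg
import Pool.Agent.Helper60.Unc.Comb

/-!
Majorants with the A_2 property for all path sets of a subadditive function (all exponents).
-/

set_option autoImplicit false
set_option linter.unusedSectionVars false
open Finset H60Unc

namespace H550Unc
noncomputable section

/-- A finite increasing family of forest orders on `V` (levels are natural numbers). -/
structure Lev (V : Type) [LinearOrder V] where
  R : ℕ → V → V → Prop
  refl : ∀ n u, R n u u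
  le : ∀ n u v, R n u v → u ≤ v
  trans : ∀ n u v w, R n u v → R n v w → R n u w
  tree : ∀ n u v w, R n u w → R n v w → u ≤ v → R n u v
  mono : ∀ m n u v, m ≤ n → R m u v → R n u v

variable {V : Type} [LinearOrder V] [Fintype V]

/-- a path of level `n`: a chain for the forest order which is closed downwards -/
def Lev.Path (L : Lev V) (n : ℕ) (A : Finset V) : Prop :=
  (∀ u ∈ A, ∀ v, L.R n v u → v ∈ A) ∧ (∀ u ∈ A, ∀ v ∈ A, u ≤ v → L.R n u v)

/-- the indicator of a cylinder -/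
def ci (A : Finset V) (y : V → Bool) (w : V → Bool) : ℝ := if ∀ u ∈ A, w u = y u then 1 else 0

/-- cylinders based on paths -/
structure Cyl (L : Lev V) where
  n : ℕ
  A : Finset V
  y : V → Bool
  h : L.Path n A

variable {L : Lev V}

/-- the indicator function -/
def Cyl.i (c : Cyl L) (w : V → Bool) : ℝ := ci c.A c.y w

/-- the indicator of the complement of the union of the cylinders of a list -/
def Nn (l : List (Cyl L)) (w : V → Bool) : ℝ := (l.map fun c => 1 - c.i w).prod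

/-- the indicator of the intersection of the cylinders of a list -/
def Px (l : List (Cyl L)) (w : V → Bool) : ℝ := (l.map fun c => c.i w).prod

/-- the probability, given `c`, of the complement of the union of the cylinders of a list -/
def pI (c : Cyl L) (l : List (Cyl L)) : ℝ := ex (fun w => Nn l w * c.i w) / ex c.i

/-- the overlap function of a list (the head of the list is the latest cylinder) -/
def Phi : List (Cyl L) → (V → Bool) → ℝ
  | [], _ => 0
  | c :: l, w => pI c l * c.i w + Phi l w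

/-- a list in which every cylinder, when added, still had conditional probability at least `θ`
of being new, and the levels increase towards the head -/
def Good (θ : ℝ) : List (Cyl L) → Prop
  | [] => True
  | c :: l => θ ≤ pI c l ∧ (∀ c' ∈ l, c'.n ≤ c.n) ∧ Good θ l

theorem ex_mul_indep {f g : (V → Bool) → ℝ} {A B : Finset V} (hf : Dep f A) (hg : Dep g B)
    (h : Disjoint A B) : ex (fun w => f w * g w) = ex f * ex g := by
  rw [← ex_av A]
  rw [av_mul_left hf]
  have h1 : av A g = fun _ => ex g := by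
    have h2 : av A (av B g) = av (A ∩ B) g := av_av A B g
    rw [av_of_dep hg, Finset.disjoint_iff_inter_eq_empty.mp h] at h2
    rw [h2]
    funext w
    simp only [av]
    congr 1
  rw [h1]
  have h3 : (fun w => f w * ex g) = fun w => ex g * f w := by funext w; ring
  rw [h3, ex_smul, mul_comm]

theorem ci_dep (A : Finset V) (y : V → Bool) : Dep (ci A y) A := by
  intro w w' h
  unfold ci
  congr 1
  apply propext
  constructor
  · intro h1 u hu; rw [← h u hu]; exact h1 u hu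
  · intro h1 u hu; rw [h u hu]; exact h1 u hu

theorem ci_nonneg (A : Finset V) (y : V → Bool) (w : V → Bool) : 0 ≤ ci A y w := by
  unfold ci; split_ifs <;> norm_num

theorem ci_le_one (A : Finset V) (y : V → Bool) (w : V → Bool) : ci A y w ≤ 1 := by
  unfold ci; split_ifs <;> norm_num

theorem ex_pos_of {f : (V → Bool) → ℝ} (h : ∀ w, 0 ≤ f w) (w0 : V → Bool) (h0 : 0 < f w0) :
    0 < ex f := by
  unfold ex
  refine mul_pos (inv_pos.mpr card_pos') ?_
  exact Finset.sum_pos' (fun w _ => h w) ⟨w0, Finset.mem_univ _, h0⟩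

theorem ex_ci_pos (A : Finset V) (y : V → Bool) : 0 < ex (ci A y) := by
  refine ex_pos_of (ci_nonneg A y) y ?_
  simp [ci]

theorem Cyl.i_nonneg (c : Cyl L) (w : V → Bool) : 0 ≤ c.i w := ci_nonneg _ _ _
theorem Cyl.i_le_one (c : Cyl L) (w : V → Bool) : c.i w ≤ 1 := ci_le_one _ _ _
theorem Cyl.i_zero_or_one (c : Cyl L) (w : V → Bool) : c.i w = 0 ∨ c.i w = 1 := by
  unfold Cyl.i ci; split_ifs <;> simp
theorem Cyl.i_mul_self (c : Cyl L) (w : V → Bool) : c.i w * c.i w = c.i w := by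
  rcases c.i_zero_or_one w with h | h <;> rw [h] <;> norm_num
theorem Cyl.i_pos (c : Cyl L) : 0 < ex c.i := ex_ci_pos _ _

theorem Nn_cons (c : Cyl L) (l : List (Cyl L)) (w : V → Bool) :
    Nn (c :: l) w = (1 - c.i w) * Nn l w := by simp [Nn]

theorem Nn_nil (w : V → Bool) : Nn ([] : List (Cyl L)) w = 1 := by simp [Nn]

theorem Nn_zero_or_one (l : List (Cyl L)) (w : V → Bool) : Nn l w = 0 ∨ Nn l w = 1 := by
  induction l with
  | nil => right; exact Nn_nil w
  | cons c l ih =>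
    rw [Nn_cons]
    rcases c.i_zero_or_one w with h | h
    · rw [h]; simpa using ih
    · rw [h]; simp

theorem Nn_nonneg (l : List (Cyl L)) (w : V → Bool) : 0 ≤ Nn l w := by
  rcases Nn_zero_or_one l w with h | h <;> rw [h]; norm_num

theorem Nn_le_one (l : List (Cyl L)) (w : V → Bool) : Nn l w ≤ 1 := by
  rcases Nn_zero_or_one l w with h | h <;> rw [h]; norm_num

theorem Nn_cons_le (c : Cyl L) (l : List (Cyl L)) (w : V → Bool) : Nn (c :: l) w ≤ Nn l w := by
  rw [Nn_cons]
  have h1 := c.i_nonneg w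
  have h2 := c.i_le_one w
  have h3 := Nn_nonneg l w
  nlinarith

theorem Px_cons (c : Cyl L) (l : List (Cyl L)) (w : V → Bool) :
    Px (c :: l) w = c.i w * Px l w := by simp [Px]

theorem Px_nonneg (l : List (Cyl L)) (w : V → Bool) : 0 ≤ Px l w := by
  induction l with
  | nil => simp [Px]
  | cons c l ih => rw [Px_cons]; exact mul_nonneg (c.i_nonneg w) ih

theorem pI_nonneg (c : Cyl L) (l : List (Cyl L)) : 0 ≤ pI c l :=
  div_nonneg (ex_nonneg fun w => mul_nonneg (Nn_nonneg l w) (c.i_nonneg w)) c.i_pos.le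

theorem pI_le_one (c : Cyl L) (l : List (Cyl L)) : pI c l ≤ 1 := by
  unfold pI
  rw [div_le_one c.i_pos]
  refine ex_mono fun w => ?_
  have h1 := c.i_nonneg w
  have h3 := Nn_le_one l w
  nlinarith

theorem pI_mul (c : Cyl L) (l : List (Cyl L)) :
    pI c l * ex c.i = ex (fun w => Nn l w * c.i w) := by
  unfold pI
  exact div_mul_cancel₀ _ c.i_pos.ne'

theorem pI_anti (c x : Cyl L) (l : List (Cyl L)) : pI x (c :: l) ≤ pI x l := by
  unfold pI
  refine div_le_div_of_nonneg_right ?_ x.i_pos.le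
  refine ex_mono fun w => ?_
  exact mul_le_mul_of_nonneg_right (Nn_cons_le c l w) (x.i_nonneg w)

theorem Phi_nonneg (l : List (Cyl L)) (w : V → Bool) : 0 ≤ Phi l w := by
  induction l with
  | nil => exact le_rfl
  | cons c l ih => exact add_nonneg (mul_nonneg (pI_nonneg c l) (c.i_nonneg w)) ih

/-- the total mass of the overlap function is the probability of the union -/
theorem ex_Phi (l : List (Cyl L)) : ex (Phi l) = ex (fun w => 1 - Nn l w) := by
  induction l with
  | nil =>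
    have h1 : Phi ([] : List (Cyl L)) = fun w => 1 - Nn ([] : List (Cyl L)) w := by
      funext w; rw [Nn_nil]; simp [Phi]
    rw [h1]
  | cons c l ih =>
    have h1 : Phi (c :: l) = fun w => pI c l * c.i w + Phi l w := by funext w; rfl
    have h2 : (fun w => 1 - Nn (c :: l) w)
        = fun w => Nn l w * c.i w + (1 - Nn l w) := by
      funext w; rw [Nn_cons]; ring
    have h3 : ex (fun w => pI c l * c.i w) = ex (fun w => Nn l w * c.i w) := by
      rw [ex_smul]; exact pI_mul c l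
    rw [h1, h2, ex_add, ex_add, ih, h3]

section
/-! correlation -/
namespace K1

/-! TARGET correlation -/

theorem Nn_filter833 (P : Cyl L → Prop) [DecidablePred P] (l : List (Cyl L)) (w : V → Bool) :
    Nn l w = Nn (l.filter (fun c => decide (P c))) w * Nn (l.filter (fun c => decide (¬ P c))) w := by
  induction l with
  | nil => simp [Nn]
  | cons c l ih =>
    by_cases h : P c
    · have e1 : (c :: l).filter (fun c => decide (P c)) = c :: l.filter (fun c => decide (P c)) :=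
        List.filter_cons_of_pos (by simpa using h)
      have e2 : (c :: l).filter (fun c => decide (¬ P c)) = l.filter (fun c => decide (¬ P c)) :=
        List.filter_cons_of_neg (by simpa using h)
      rw [e1, e2, Nn_cons, Nn_cons, ih]; ring
    · have e1 : (c :: l).filter (fun c => decide (P c)) = l.filter (fun c => decide (P c)) :=
        List.filter_cons_of_neg (by simpa using h)
      have e2 : (c :: l).filter (fun c => decide (¬ P c)) = c :: l.filter (fun c => decide (¬ P c)) :=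
        List.filter_cons_of_pos (by simpa using h)
      rw [e1, e2, Nn_cons, Nn_cons, ih]; ring

theorem Nn_dep833 (l : List (Cyl L)) (S : Finset V) (h : ∀ c ∈ l, c.A ⊆ S) : Dep (Nn l) S := by
  induction l with
  | nil => intro w w' _; rw [Nn_nil, Nn_nil]
  | cons c l ih =>
    intro w w' hw
    rw [Nn_cons, Nn_cons]
    have h1 := ih (fun c' hc' => h c' (List.mem_cons_of_mem _ hc')) w w' hw
    have h2 : c.i w = c.i w' := ci_dep c.A c.y w w' (fun v hv => hw v (h c List.mem_cons_self hv))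
    rw [h1, h2]

theorem Nn_mix_dep833 (l : List (Cyl L)) (S A : Finset V) (y : V → Bool) (h : ∀ c ∈ l, c.A ⊆ S) :
    Dep (fun w => Nn l (mix A y w)) (S \ A) := by
  intro w w' hw
  apply Nn_dep833 l S h
  intro v hv
  unfold mix
  by_cases hA : v ∈ A
  · simp [hA]
  · simp only [hA, if_false]
    exact hw v (Finset.mem_sdiff.mpr ⟨hv, hA⟩)

theorem Nn_mix_mul833 (l : List (Cyl L)) (A : Finset V) (y : V → Bool) (w : V → Bool) :
    Nn l w * ci A y w = Nn l (mix A y w) * ci A y w := by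
  unfold ci
  split_ifs with h
  · have : mix A y w = w := by
      funext v
      unfold mix
      by_cases hA : v ∈ A
      · simp only [hA, if_true]; exact (h v hA).symm
      · simp [hA]
    rw [this]
  · ring

theorem correlation (l : List (Cyl L)) (ck cj : Cyl L) (h1 : ∀ c ∈ l, c.n ≤ ck.n)
    (h2 : ck.n ≤ cj.n) :
    ex (fun w => Nn l w * ck.i w) * ex (fun w => Nn l w * cj.i w)
        * ex (fun w => ck.i w * cj.i w)
      ≤ ex (fun w => Nn l w * (ck.i w * cj.i w)) * (ex ck.i * ex cj.i) := by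
  classical
  obtain ⟨TJ, hTJ⟩ : ∃ TJ : Cyl L → Prop, TJ = fun c => ∃ u ∈ cj.A, u ∉ ck.A ∧ ∃ a ∈ c.A, L.R ck.n u a :=
    ⟨_, rfl⟩
  have hTJ' : ∀ c, TJ c ↔ ∃ u ∈ cj.A, u ∉ ck.A ∧ ∃ a ∈ c.A, L.R ck.n u a := by intro c; rw [hTJ]
  -- comparability at level ck.n
  have cmp : ∀ c ∈ l, ∀ v ∈ c.A, ∀ a ∈ c.A, v ≤ a → L.R ck.n v a := by
    intro c hc v hv a ha hva
    exact L.mono _ _ _ _ (h1 c hc) (c.h.2 v hv a ha hva)
  -- (1)
  have p1 : ∀ c ∈ l, ¬ TJ c → ∀ v ∈ c.A, v ∈ cj.A → v ∈ ck.A := by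
    intro c hc hcK v hv hvj
    by_contra hcon
    exact hcK ((hTJ' c).mpr ⟨v, hvj, hcon, v, hv, L.refl _ _⟩)
  -- (2)
  have p2 : ∀ c ∈ l, TJ c → ∀ v ∈ c.A, v ∈ ck.A → v ∈ cj.A := by
    intro c hc hcJ v hv hvk
    obtain ⟨u, huj, huk, a, ha, hua⟩ := (hTJ' c).mp hcJ
    rcases le_total v a with hva | hva
    · have hRva := cmp c hc v hv a ha hva
      rcases le_total u v with huv | huv
      · exact absurd (ck.h.1 v hvk u (L.tree _ _ _ _ hua hRva huv)) huk
      · exact cj.h.1 u huj v (L.mono _ _ _ _ h2 (L.tree _ _ _ _ hRva hua huv))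
    · have hRav := cmp c hc a ha v hv hva
      exact absurd (ck.h.1 v hvk u (L.trans _ _ _ _ hua hRav)) huk
  -- (3)
  have p3 : ∀ c ∈ l, TJ c → ∀ c' : Cyl L, ∀ w ∈ c.A, w ∈ c'.A → w ∉ ck.A → w ∉ cj.A → TJ c' := by
    intro c hc hcJ c' w hw hw' hwk hwj
    obtain ⟨u, huj, huk, a, ha, hua⟩ := (hTJ' c).mp hcJ
    refine (hTJ' c').mpr ⟨u, huj, huk, w, hw', ?_⟩
    rcases le_total w a with hwa | hwa
    · have hRwa := cmp c hc w hw a ha hwa
      rcases le_total u w with huw | huw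
      · exact L.tree _ _ _ _ hua hRwa huw
      · exact absurd (cj.h.1 u huj w (L.mono _ _ _ _ h2 (L.tree _ _ _ _ hRwa hua huw))) hwj
    · exact L.trans _ _ _ _ hua (cmp c hc a ha w hw hwa)
  obtain ⟨lJ, hlJ⟩ : ∃ lJ, lJ = l.filter (fun c => decide (TJ c)) := ⟨_, rfl⟩
  obtain ⟨lK, hlK⟩ : ∃ lK, lK = l.filter (fun c => decide (¬ TJ c)) := ⟨_, rfl⟩
  have hN : ∀ w, Nn l w = Nn lJ w * Nn lK w := by
    intro w
    rw [hlJ, hlK]
    exact Nn_filter833 TJ l w
  have mJ : ∀ c ∈ lJ, c ∈ l ∧ TJ c := by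
    intro c hc
    rw [hlJ, List.mem_filter] at hc
    exact ⟨hc.1, by simpa using hc.2⟩
  have mK : ∀ c ∈ lK, c ∈ l ∧ ¬ TJ c := by
    intro c hc
    rw [hlK, List.mem_filter] at hc
    exact ⟨hc.1, by simpa using hc.2⟩
  obtain ⟨SJ, hSJ⟩ : ∃ SJ : Finset V, SJ = Finset.univ.filter (fun v => ∃ c ∈ lJ, v ∈ c.A) := ⟨_, rfl⟩
  obtain ⟨SK, hSK⟩ : ∃ SK : Finset V, SK = Finset.univ.filter (fun v => ∃ c ∈ lK, v ∈ c.A) := ⟨_, rfl⟩
  have sJ : ∀ c ∈ lJ, c.A ⊆ SJ := by
    intro c hc v hv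
    rw [hSJ, Finset.mem_filter]
    exact ⟨Finset.mem_univ _, c, hc, hv⟩
  have sK : ∀ c ∈ lK, c.A ⊆ SK := by
    intro c hc v hv
    rw [hSK, Finset.mem_filter]
    exact ⟨Finset.mem_univ _, c, hc, hv⟩
  have dJ := Nn_mix_dep833 lJ SJ cj.A cj.y sJ
  have dK := Nn_mix_dep833 lK SK ck.A ck.y sK
  have disjK : Disjoint (SK \ ck.A) (ck.A ∪ cj.A) := by
    rw [Finset.disjoint_left]
    intro v hv hv2
    rw [Finset.mem_sdiff, hSK, Finset.mem_filter] at hv
    obtain ⟨⟨-, c, hc, hvc⟩, hvk⟩ := hv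
    rw [Finset.mem_union] at hv2
    rcases hv2 with h | h
    · exact hvk h
    · exact hvk (p1 c (mK c hc).1 (mK c hc).2 v hvc h)
  have disjJ : Disjoint (SJ \ cj.A) (ck.A ∪ cj.A) := by
    rw [Finset.disjoint_left]
    intro v hv hv2
    rw [Finset.mem_sdiff, hSJ, Finset.mem_filter] at hv
    obtain ⟨⟨-, c, hc, hvc⟩, hvj⟩ := hv
    rw [Finset.mem_union] at hv2
    rcases hv2 with h | h
    · exact hvj (p2 c (mJ c hc).1 (mJ c hc).2 v hvc h)
    · exact hvj h
  have disjKJ : Disjoint (SK \ ck.A) (SJ \ cj.A) := by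
    rw [Finset.disjoint_left]
    intro v hv hv2
    rw [Finset.mem_sdiff, hSK, Finset.mem_filter] at hv
    rw [Finset.mem_sdiff, hSJ, Finset.mem_filter] at hv2
    obtain ⟨⟨-, c, hc, hvc⟩, hvk⟩ := hv
    obtain ⟨⟨-, c', hc', hvc'⟩, hvj⟩ := hv2
    exact (mK c hc).2 (p3 c' (mJ c' hc').1 (mJ c' hc').2 c v hvc' hvc hvk hvj)
  obtain ⟨eK, heK⟩ : ∃ eK : (V → Bool) → ℝ, eK = fun w => Nn lK (mix ck.A ck.y w) := ⟨_, rfl⟩
  obtain ⟨eJ, heJ⟩ : ∃ eJ : (V → Bool) → ℝ, eJ = fun w => Nn lJ (mix cj.A cj.y w) := ⟨_, rfl⟩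
  rw [← heK] at dK
  rw [← heJ] at dJ
  have hK : ∀ w, Nn lK w * ck.i w = eK w * ck.i w := by
    intro w
    rw [heK]
    exact Nn_mix_mul833 lK ck.A ck.y w
  have hJ : ∀ w, Nn lJ w * cj.i w = eJ w * cj.i w := by
    intro w
    rw [heJ]
    exact Nn_mix_mul833 lJ cj.A cj.y w
  have dk : Dep ck.i ck.A := ci_dep _ _
  have dj : Dep cj.i cj.A := ci_dep _ _
  have dkj : Dep (fun w => ck.i w * cj.i w) (ck.A ∪ cj.A) :=
    Dep.mul (dk.mono Finset.subset_union_left) (dj.mono Finset.subset_union_right)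
  -- main product formula
  have m1 : ex (fun w => Nn l w * (ck.i w * cj.i w)) = ex eK * (ex eJ * ex (fun w => ck.i w * cj.i w)) := by
    have e1 : (fun w => Nn l w * (ck.i w * cj.i w)) = fun w => eK w * (eJ w * (ck.i w * cj.i w)) := by
      funext w
      rw [hN w]
      have a1 := hK w
      have a2 := hJ w
      calc Nn lJ w * Nn lK w * (ck.i w * cj.i w) = (Nn lK w * ck.i w) * (Nn lJ w * cj.i w) := by ring
        _ = (eK w * ck.i w) * (eJ w * cj.i w) := by rw [a1, a2]
        _ = _ := by ring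
    rw [e1]
    have d2 : Dep (fun w => eJ w * (ck.i w * cj.i w)) ((SJ \ cj.A) ∪ (ck.A ∪ cj.A)) :=
      Dep.mul (dJ.mono Finset.subset_union_left) (dkj.mono Finset.subset_union_right)
    rw [ex_mul_indep dK d2 (Finset.disjoint_union_right.mpr ⟨disjKJ, disjK⟩),
      ex_mul_indep dJ dkj disjJ]
  have m2 : ex (fun w => Nn l w * ck.i w) ≤ ex eK * ex ck.i := by
    rw [← ex_mul_indep dK dk (disjK.mono_right Finset.subset_union_left)]
    apply ex_mono
    intro w
    rw [← hK w, hN w]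
    have b1 := Nn_le_one lJ w
    have b2 := Nn_nonneg lK w
    have b3 := ck.i_nonneg w
    have b4 := mul_nonneg b2 b3
    nlinarith
  have m3 : ex (fun w => Nn l w * cj.i w) ≤ ex eJ * ex cj.i := by
    rw [← ex_mul_indep dJ dj (disjJ.mono_right Finset.subset_union_right)]
    apply ex_mono
    intro w
    rw [← hJ w, hN w]
    have b1 := Nn_le_one lK w
    have b2 := Nn_nonneg lJ w
    have b3 := cj.i_nonneg w
    have b4 := mul_nonneg b2 b3
    nlinarith
  have n1 : 0 ≤ ex (fun w => Nn l w * ck.i w) :=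
    ex_nonneg fun w => mul_nonneg (Nn_nonneg l w) (ck.i_nonneg w)
  have n2 : 0 ≤ ex (fun w => Nn l w * cj.i w) :=
    ex_nonneg fun w => mul_nonneg (Nn_nonneg l w) (cj.i_nonneg w)
  have n3 : 0 ≤ ex (fun w => ck.i w * cj.i w) :=
    ex_nonneg fun w => mul_nonneg (ck.i_nonneg w) (cj.i_nonneg w)
  rw [m1]
  calc ex (fun w => Nn l w * ck.i w) * ex (fun w => Nn l w * cj.i w) * ex (fun w => ck.i w * cj.i w)
      ≤ (ex eK * ex ck.i) * (ex eJ * ex cj.i) * ex (fun w => ck.i w * cj.i w) := by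
        apply mul_le_mul_of_nonneg_right _ n3
        exact mul_le_mul m2 m3 n2 (n1.trans m2)
    _ = _ := by ring

end K1
end

alias correlation := K1.correlation

section
/-! multi -/
namespace K2

theorem ci_anti {A B : Finset V} (h : B ⊆ A) (y w : V → Bool) : ci A y w ≤ ci B y w := by
  unfold ci
  by_cases h1 : ∀ u ∈ A, w u = y u
  · have h2 : ∀ u ∈ B, w u = y u := fun u hu => h1 u (h hu)
    rw [if_pos h1, if_pos h2]
  · rw [if_neg h1]
    split_ifs <;> norm_num

theorem Px_dep (X : List (Cyl L)) (S : Finset V) (h : ∀ x ∈ X, x.A ⊆ S) : Dep (Px X) S := by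
  induction X with
  | nil =>
    intro w w' _
    simp [Px]
  | cons c l ih =>
    intro w w' hw
    rw [Px_cons, Px_cons]
    have h1 : Dep (Px l) S := ih (fun x hx => h x (List.mem_cons_of_mem _ hx))
    have h2 : Dep c.i S := (ci_dep c.A c.y).mono (h c (List.mem_cons_self))
    rw [h1 w w' hw, h2 w w' hw]

theorem Px_eq_zero {X : List (Cyl L)} {x : Cyl L} (hx : x ∈ X) {w : V → Bool} (h : x.i w = 0) :
    Px X w = 0 := by
  unfold Px
  apply List.prod_eq_zero
  rw [List.mem_map]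
  exact ⟨x, hx, h⟩

theorem trace_down (c x : Cyl L) (h : c.n ≤ x.n) {u v : V} (hu : u ∈ c.A) (hu' : u ∈ x.A)
    (hv : v ∈ c.A) (hvu : v ≤ u) : v ∈ x.A :=
  x.h.1 u hu' v (L.mono c.n x.n v u h (c.h.2 v hv u hu hvu))

theorem trace_nested (c x x' : Cyl L) (h : c.n ≤ x.n) (h' : c.n ≤ x'.n)
    (hc : (c.A ∩ x'.A).card ≤ (c.A ∩ x.A).card) : c.A ∩ x'.A ⊆ x.A := by
  intro u hu
  rw [Finset.mem_inter] at hu
  by_contra hux
  have h1 : c.A ∩ x.A ⊆ c.A ∩ x'.A := by
    intro v hv
    rw [Finset.mem_inter] at hv ⊢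
    refine ⟨hv.1, ?_⟩
    rcases le_total u v with huv | hvu
    · exact absurd (trace_down c x h hv.1 hv.2 hu.1 huv) hux
    · exact trace_down c x' h' hu.1 hu.2 hv.1 hvu
  have h2 : c.A ∩ x.A ⊂ c.A ∩ x'.A := by
    refine (Finset.ssubset_iff_of_subset h1).2 ⟨u, Finset.mem_inter.2 hu, ?_⟩
    intro h3
    exact hux (Finset.mem_inter.1 h3).2
  exact absurd (Finset.card_lt_card h2) (not_lt.2 hc)

/-! TARGET multi -/

theorem multi (c : Cyl L) (X : List (Cyl L)) (hX : X ≠ []) (h : ∀ x ∈ X, c.n ≤ x.n) :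
    ∃ x ∈ X, ex (fun w => c.i w * Px X w) * ex x.i ≤ ex (Px X) * ex (fun w => c.i w * x.i w) := by
  have hne : {x | x ∈ X}.Nonempty := by
    obtain ⟨x, hx⟩ := List.exists_mem_of_ne_nil X hX
    exact ⟨x, hx⟩
  obtain ⟨x, hx, hmax⟩ := Set.exists_max_image {x | x ∈ X} (fun x => (c.A ∩ x.A).card)
    (List.finite_toSet X) hne
  refine ⟨x, hx, ?_⟩
  have hnest : ∀ x' ∈ X, c.A ∩ x'.A ⊆ x.A := fun x' hx' =>
    trace_nested c x x' (h x hx) (h x' hx') (hmax x' hx')
  by_cases hag : ∀ u ∈ c.A ∩ x.A, c.y u = x.y u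
  · -- the two cylinders are compatible
    have h1 : (fun w => c.i w * x.i w) = fun w => ci (c.A \ x.A) c.y w * x.i w := by
      funext w
      by_cases hw : ∀ u ∈ x.A, w u = x.y u
      · have h2 : (∀ u ∈ c.A, w u = c.y u) ↔ (∀ u ∈ c.A \ x.A, w u = c.y u) := by
          constructor
          · intro h3 u hu
            exact h3 u (Finset.mem_sdiff.1 hu).1
          · intro h3 u hu
            by_cases hux : u ∈ x.A
            · rw [hw u hux, hag u (Finset.mem_inter.2 ⟨hu, hux⟩)]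
            · exact h3 u (Finset.mem_sdiff.2 ⟨hu, hux⟩)
        have h3 : c.i w = ci (c.A \ x.A) c.y w := by
          unfold Cyl.i ci
          by_cases h4 : ∀ u ∈ c.A, w u = c.y u
          · rw [if_pos h4, if_pos (h2.1 h4)]
          · rw [if_neg h4, if_neg (fun h5 => h4 (h2.2 h5))]
        rw [h3]
      · have h3 : x.i w = 0 := by
          unfold Cyl.i ci
          rw [if_neg hw]
        rw [h3, mul_zero, mul_zero]
    have h2 : ex (fun w => c.i w * x.i w) = ex (ci (c.A \ x.A) c.y) * ex x.i := by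
      rw [h1]
      exact ex_mul_indep (ci_dep _ _) (ci_dep x.A x.y) Finset.sdiff_disjoint
    have h3 : Dep (Px X) (c.A \ x.A)ᶜ := by
      apply Px_dep
      intro x' hx' u hu
      rw [Finset.mem_compl, Finset.mem_sdiff]
      rintro ⟨h4, h5⟩
      exact h5 (hnest x' hx' (Finset.mem_inter.2 ⟨h4, hu⟩))
    have h4 : ex (fun w => ci (c.A \ x.A) c.y w * Px X w)
        = ex (ci (c.A \ x.A) c.y) * ex (Px X) :=
      ex_mul_indep (ci_dep _ _) h3 disjoint_compl_right
    have h5 : ex (fun w => c.i w * Px X w) ≤ ex (fun w => ci (c.A \ x.A) c.y w * Px X w) :=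
      ex_mono fun w => mul_le_mul_of_nonneg_right (ci_anti Finset.sdiff_subset c.y w)
        (Px_nonneg X w)
    rw [h4] at h5
    rw [h2]
    have h6 := x.i_pos
    calc ex (fun w => c.i w * Px X w) * ex x.i
        ≤ (ex (ci (c.A \ x.A) c.y) * ex (Px X)) * ex x.i :=
          mul_le_mul_of_nonneg_right h5 h6.le
      _ = ex (Px X) * (ex (ci (c.A \ x.A) c.y) * ex x.i) := by ring
  · -- the two cylinders are disjoint
    push Not at hag
    obtain ⟨u, hu, hne⟩ := hag
    rw [Finset.mem_inter] at hu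
    have h1 : ∀ w, c.i w * Px X w = 0 := by
      intro w
      by_cases hc : c.i w = 0
      · rw [hc, zero_mul]
      · have h2 : x.i w = 0 := by
          by_contra hxw
          have h3 : w u = c.y u := by
            by_contra h4
            apply hc
            unfold Cyl.i ci
            rw [if_neg (fun h5 => h4 (h5 u hu.1))]
          have h4 : w u = x.y u := by
            by_contra h4
            apply hxw
            unfold Cyl.i ci
            rw [if_neg (fun h5 => h4 (h5 u hu.2))]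
          exact hne (h3.symm.trans h4)
        rw [Px_eq_zero hx h2, mul_zero]
    have h2 : (fun w => c.i w * Px X w) = fun _ => 0 := funext h1
    rw [h2, ex_const, zero_mul]
    exact mul_nonneg (ex_nonneg (Px_nonneg X))
      (ex_nonneg fun w => mul_nonneg (c.i_nonneg w) (x.i_nonneg w))

end K2
end

alias multi := K2.multi

section
/-! overlap_one -/
namespace K3

/-! TARGET overlap_one -/

theorem overlap_aux (θ : ℝ) (x : Cyl L) (l : List (Cyl L)) (hl : Good θ l)
    (hx : ∀ c ∈ l, c.n ≤ x.n) (hp : 0 < pI x l) :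
    ex (fun w => Phi l w * x.i w) ≤ - Real.log (pI x l) * ex x.i := by
  induction l with
  | nil =>
    have h1 : (fun w => Phi ([] : List (Cyl L)) w * x.i w) = fun _ => (0 : ℝ) := by
      funext w; simp [Phi]
    have h2 : pI x ([] : List (Cyl L)) = 1 := by
      unfold pI
      have : (fun w => Nn ([] : List (Cyl L)) w * x.i w) = x.i := by
        funext w; rw [Nn_nil, one_mul]
      rw [this]
      exact div_self x.i_pos.ne'
    rw [h1, ex_const, h2, Real.log_one]
    simp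
  | cons c l ih =>
    obtain ⟨hc, hlev, hl0⟩ := hl
    have hx0 : ∀ c' ∈ l, c'.n ≤ x.n := fun c' h => hx c' (List.mem_cons_of_mem _ h)
    have hcx : c.n ≤ x.n := hx c List.mem_cons_self
    have hanti := pI_anti c x l
    have hn0 : 0 < pI x l := hp.trans_le hanti
    have ih' := ih hl0 hx0 hn0
    set n0 := pI x l with hn0d
    set n1 := pI x (c :: l) with hn1d
    have hX : 0 < ex x.i := x.i_pos
    have hC : 0 < ex c.i := c.i_pos
    have e1 : n1 * ex x.i = ex (fun w => Nn (c :: l) w * x.i w) := pI_mul x (c :: l)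
    have e0 : n0 * ex x.i = ex (fun w => Nn l w * x.i w) := pI_mul x l
    have ediff : (n0 - n1) * ex x.i = ex (fun w => Nn l w * (c.i w * x.i w)) := by
      rw [sub_mul, e0, e1, ← ex_sub]
      congr 1
      funext w
      rw [Nn_cons]
      ring
    have hcor := correlation l c x hlev hcx
    rw [← ediff, ← pI_mul c l, ← e0] at hcor
    have hcor2 : pI c l * n0 * ex (fun w => c.i w * x.i w) ≤ (n0 - n1) * ex x.i := by
      have h3 : (pI c l * n0 * ex (fun w => c.i w * x.i w)) * (ex c.i * ex x.i)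
          ≤ ((n0 - n1) * ex x.i) * (ex c.i * ex x.i) := by
        refine le_trans (le_of_eq ?_) hcor
        ring
      exact le_of_mul_le_mul_right h3 (mul_pos hC hX)
    have hlog : Real.log (n1 / n0) ≤ n1 / n0 - 1 :=
      Real.log_le_sub_one_of_pos (div_pos hp hn0)
    rw [Real.log_div hp.ne' hn0.ne'] at hlog
    have hcor3 : pI c l * ex (fun w => c.i w * x.i w) ≤ (1 - n1 / n0) * ex x.i := by
      have h4 : (pI c l * ex (fun w => c.i w * x.i w)) * n0 ≤ ((1 - n1 / n0) * ex x.i) * n0 := by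
        have h5 : ((1 - n1 / n0) * ex x.i) * n0 = (n0 - n1) * ex x.i := by
          field_simp
        rw [h5]
        refine le_trans (le_of_eq ?_) hcor2
        ring
      exact le_of_mul_le_mul_right h4 hn0
    have hsplit : ex (fun w => Phi (c :: l) w * x.i w) =
        pI c l * ex (fun w => c.i w * x.i w) + ex (fun w => Phi l w * x.i w) := by
      rw [← ex_smul, ← ex_add]
      congr 1
      funext w
      show (pI c l * c.i w + Phi l w) * x.i w = _
      ring
    rw [hsplit]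
    have h6 : (1 - n1 / n0) * ex x.i ≤ (Real.log n0 - Real.log n1) * ex x.i := by
      refine mul_le_mul_of_nonneg_right ?_ hX.le
      linarith
    nlinarith [h6, hcor3, ih']

theorem overlap_one (l : List (Cyl L)) {θ : ℝ} (hθ : 0 < θ) (hl : Good θ l) (x : Cyl L)
    (hx : ∀ c ∈ l, c.n ≤ x.n) (hp : θ ≤ pI x l) :
    ex (fun w => Phi l w * x.i w) ≤ Real.log (1 / θ) * ex x.i := by
  refine (overlap_aux θ x l hl hx (hθ.trans_le hp)).trans ?_
  refine mul_le_mul_of_nonneg_right ?_ x.i_pos.le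
  rw [one_div, Real.log_inv]
  exact neg_le_neg (Real.log_le_log hθ hp)

end K3
end

alias overlap_one := K3.overlap_one

section
/-! overlap_multi -/
namespace K4

/-! TARGET overlap_multi -/

theorem overlap_multi_aux (l : List (Cyl L)) (X : List (Cyl L))
    (hX : X ≠ []) (hx : ∀ x ∈ X, ∀ c ∈ l, c.n ≤ x.n) :
    ex (fun w => Phi l w * Px X w) ≤
      ex (Px X) * (X.map fun x => ex (fun w => Phi l w * x.i w) / ex x.i).sum := by
  induction l with
  | nil =>
    have h1 : (fun w : V → Bool => Phi ([] : List (Cyl L)) w * Px X w) = fun _ => 0 := by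
      funext w; simp [Phi]
    have h2 : ∀ x : Cyl L, ex (fun w => Phi ([] : List (Cyl L)) w * x.i w) / ex x.i = 0 := by
      intro x
      have : (fun w : V → Bool => Phi ([] : List (Cyl L)) w * x.i w) = fun _ => 0 := by
        funext w; simp [Phi]
      rw [this, ex_const, zero_div]
    rw [h1, ex_const]
    simp only [h2]
    simp
  | cons c l ih =>
    have ih' := ih (fun x hxX c' hc' => hx x hxX c' (List.mem_cons_of_mem _ hc'))
    have hPx : 0 ≤ ex (Px X) := ex_nonneg (Px_nonneg X)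
    have h1 : ex (fun w => Phi (c :: l) w * Px X w) =
        pI c l * ex (fun w => c.i w * Px X w) + ex (fun w => Phi l w * Px X w) := by
      rw [← ex_smul, ← ex_add]
      congr 1
      funext w
      simp only [Phi]
      ring
    have h2 : ∀ x : Cyl L, ex (fun w => Phi (c :: l) w * x.i w) / ex x.i =
        pI c l * (ex (fun w => c.i w * x.i w) / ex x.i) + ex (fun w => Phi l w * x.i w) / ex x.i := by
      intro x
      have : ex (fun w => Phi (c :: l) w * x.i w) =
          pI c l * ex (fun w => c.i w * x.i w) + ex (fun w => Phi l w * x.i w) := by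
        rw [← ex_smul, ← ex_add]
        congr 1
        funext w
        simp only [Phi]
        ring
      rw [this, add_div, mul_div_assoc]
    simp only [h2]
    rw [h1, List.sum_map_add, mul_add]
    refine add_le_add ?_ ih'
    obtain ⟨x, hxX, hxm⟩ := multi c X hX (fun x hxX => hx x hxX c List.mem_cons_self)
    have h3 : ex (fun w => c.i w * Px X w) ≤ ex (Px X) * (ex (fun w => c.i w * x.i w) / ex x.i) := by
      rw [← mul_div_assoc, le_div_iff₀ x.i_pos]
      exact hxm
    have hnn : ∀ x : Cyl L, 0 ≤ ex (fun w => c.i w * x.i w) / ex x.i := fun x =>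
      div_nonneg (ex_nonneg fun w => mul_nonneg (c.i_nonneg w) (x.i_nonneg w)) x.i_pos.le
    have h4 : ex (fun w => c.i w * x.i w) / ex x.i ≤
        (X.map fun x => ex (fun w => c.i w * x.i w) / ex x.i).sum := by
      apply List.single_le_sum
      · intro y hy
        rw [List.mem_map] at hy
        obtain ⟨x', -, rfl⟩ := hy
        exact hnn x'
      · exact List.mem_map.2 ⟨x, hxX, rfl⟩
    rw [List.sum_map_mul_left, mul_left_comm]
    refine mul_le_mul_of_nonneg_left ?_ (pI_nonneg c l)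
    exact h3.trans (mul_le_mul_of_nonneg_left h4 hPx)

theorem overlap_multi (l : List (Cyl L)) {θ : ℝ} (hθ : 0 < θ) (hl : Good θ l) (X : List (Cyl L))
    (hX : X ≠ []) (hx : ∀ x ∈ X, ∀ c ∈ l, c.n ≤ x.n) (hp : ∀ x ∈ X, θ ≤ pI x l) :
    ex (fun w => Phi l w * Px X w) ≤ X.length * Real.log (1 / θ) * ex (Px X) := by
  have h1 := overlap_multi_aux l X hX hx
  have hPx : 0 ≤ ex (Px X) := ex_nonneg (Px_nonneg X)
  have h2 : (X.map fun x => ex (fun w => Phi l w * x.i w) / ex x.i).sum ≤ X.length * Real.log (1 / θ) := by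
    have := List.sum_le_card_nsmul (X.map fun x => ex (fun w => Phi l w * x.i w) / ex x.i)
      (Real.log (1 / θ)) (by
        intro y hy
        rw [List.mem_map] at hy
        obtain ⟨x, hxX, rfl⟩ := hy
        rw [div_le_iff₀ x.i_pos]
        exact overlap_one l hθ hl x (hx x hxX) (hp x hxX))
    rw [List.length_map, nsmul_eq_mul] at this
    exact this
  calc ex (fun w => Phi l w * Px X w) ≤ _ := h1
    _ ≤ ex (Px X) * (X.length * Real.log (1 / θ)) := mul_le_mul_of_nonneg_left h2 hPx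
    _ = _ := by ring

end K4
end

alias overlap_multi := K4.overlap_multi

/-- constants of the moment estimates -/
def Kc : ℕ → ℕ → ℝ
  | 0, _ => 1
  | m + 1, n => 1 + (m + 1) * 2 ^ m * n * Kc m (n + 1)

section
/-! moment_multi -/
namespace K5

theorem j8278_bern (m : ℕ) (s t : ℝ) (hs : 0 ≤ s) (ht : 0 ≤ t) :
    (s + t) ^ (m + 1) ≤ s ^ (m + 1) + (m + 1) * t * (s + t) ^ m := by
  induction m with
  | zero => simp
  | succ m ih =>
    have h1 : (s + t) ^ (m + 1 + 1) = (s + t) * (s + t) ^ (m + 1) := by ring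
    have h2 := mul_le_mul_of_nonneg_left ih (show 0 ≤ s + t by linarith)
    have h3 : s ^ (m + 1) ≤ (s + t) ^ (m + 1) := pow_le_pow_left₀ hs (by linarith) _
    have h4 := mul_le_mul_of_nonneg_left h3 ht
    have h5 : (s + t) * (s ^ (m + 1) + (m + 1) * t * (s + t) ^ m) =
        s ^ (m + 1 + 1) + t * s ^ (m + 1) + (m + 1) * t * (s + t) ^ (m + 1) := by ring
    rw [h1]
    push_cast
    have h6 : ((m : ℝ) + 1 + 1) * t * (s + t) ^ (m + 1) =
        (m + 1) * t * (s + t) ^ (m + 1) + t * (s + t) ^ (m + 1) := by ring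
    rw [h6]
    linarith

theorem j8278_bern2 (m : ℕ) (s t : ℝ) (hs : 1 ≤ s) (ht : 0 ≤ t) (ht1 : t ≤ 1) :
    (s + t) ^ (m + 1) ≤ s ^ (m + 1) + (m + 1) * 2 ^ m * (t * s ^ m) := by
  have h1 := j8278_bern m s t (by linarith) ht
  have h2 : (s + t) ^ m ≤ 2 ^ m * s ^ m := by
    rw [← mul_pow]
    exact pow_le_pow_left₀ (by linarith) (by linarith) m
  have h3 : ((m : ℝ) + 1) * t * (s + t) ^ m ≤ (m + 1) * t * (2 ^ m * s ^ m) :=
    mul_le_mul_of_nonneg_left h2 (by positivity)
  calc (s + t) ^ (m + 1) ≤ s ^ (m + 1) + (m + 1) * t * (s + t) ^ m := h1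
    _ ≤ s ^ (m + 1) + (m + 1) * t * (2 ^ m * s ^ m) := by linarith
    _ = _ := by ring

theorem j8278_Kc (m : ℕ) : ∀ n, 0 ≤ Kc m n := by
  induction m with
  | zero => intro n; simp [Kc]
  | succ m ih =>
    intro n
    have := ih (n + 1)
    rw [Kc]
    positivity

theorem j8278_claim (m : ℕ) {θ : ℝ} (B : ℝ) (X : List (Cyl L))
    (hB : ∀ (l : List (Cyl L)) (c : Cyl L), Good θ l → (∀ x ∈ c :: X, ∀ c' ∈ l, c'.n ≤ x.n) →
      (∀ x ∈ c :: X, θ ≤ pI x l) →
      ex (fun w => (1 + Phi l w) ^ m * Px (c :: X) w) ≤ B * ex (Px (c :: X)))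
    (l : List (Cyl L)) : Good θ l → (∀ x ∈ X, ∀ c ∈ l, c.n ≤ x.n) → (∀ x ∈ X, θ ≤ pI x l) →
    ex (fun w => (1 + Phi l w) ^ (m + 1) * Px X w) ≤
      ex (Px X) + (m + 1) * 2 ^ m * B * ex (fun w => Phi l w * Px X w) := by
  induction l with
  | nil =>
    intro _ _ _
    have h1 : (fun w => (1 + Phi ([] : List (Cyl L)) w) ^ (m + 1) * Px X w) = Px X := by
      funext w; simp [Phi]
    have h2 : (fun w => Phi ([] : List (Cyl L)) w * Px X w) = fun _ => 0 := by
      funext w; simp [Phi]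
    rw [h1, h2, ex_const, mul_zero, add_zero]
  | cons c l ih =>
    rintro ⟨hθc, hcn, hl⟩ hx hp
    have hx' : ∀ x ∈ X, ∀ c' ∈ l, c'.n ≤ x.n := fun x hx1 c' hc' =>
      hx x hx1 c' (List.mem_cons_of_mem _ hc')
    have hp' : ∀ x ∈ X, θ ≤ pI x l := fun x hx1 => (hp x hx1).trans (pI_anti c x l)
    have h1 := ih hl hx' hp'
    have h2 := hB l c hl (by
      intro x hx1 c' hc'
      rcases List.mem_cons.mp hx1 with h | h
      · rw [h]; exact hcn c' hc'
      · exact hx' x h c' hc') (by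
      intro x hx1
      rcases List.mem_cons.mp hx1 with h | h
      · rw [h]; exact hθc
      · exact hp' x h)
    have hpt : ∀ w, (1 + Phi (c :: l) w) ^ (m + 1) * Px X w ≤
        (1 + Phi l w) ^ (m + 1) * Px X w +
          ((m + 1) * 2 ^ m * pI c l) * ((1 + Phi l w) ^ m * Px (c :: X) w) := by
      intro w
      have e1 : 1 + Phi (c :: l) w = (1 + Phi l w) + pI c l * c.i w := by
        show 1 + (pI c l * c.i w + Phi l w) = _
        ring
      have ht0 : 0 ≤ pI c l * c.i w := mul_nonneg (pI_nonneg c l) (c.i_nonneg w)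
      have ht1 : pI c l * c.i w ≤ 1 := mul_le_one₀ (pI_le_one c l) (c.i_nonneg w) (c.i_le_one w)
      have e2 := j8278_bern2 m (1 + Phi l w) (pI c l * c.i w)
        (by have := Phi_nonneg l w; linarith) ht0 ht1
      have e3 := mul_le_mul_of_nonneg_right e2 (Px_nonneg X w)
      rw [e1, Px_cons]
      refine e3.trans (le_of_eq ?_)
      ring
    have h3 := ex_mono hpt
    rw [ex_add, ex_smul] at h3
    have hK : 0 ≤ ((m : ℝ) + 1) * 2 ^ m * pI c l := by
      have := pI_nonneg c l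
      positivity
    have h4 := mul_le_mul_of_nonneg_left h2 hK
    have h5 : ex (fun w => Phi (c :: l) w * Px X w) =
        pI c l * ex (Px (c :: X)) + ex (fun w => Phi l w * Px X w) := by
      have e1 : (fun w => Phi (c :: l) w * Px X w) =
          fun w => pI c l * Px (c :: X) w + Phi l w * Px X w := by
        funext w
        show (pI c l * c.i w + Phi l w) * Px X w = _
        rw [Px_cons]; ring
      rw [e1, ex_add, ex_smul]
    rw [h5]
    calc ex (fun w => (1 + Phi (c :: l) w) ^ (m + 1) * Px X w)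
        ≤ ex (fun w => (1 + Phi l w) ^ (m + 1) * Px X w) +
          ((m + 1) * 2 ^ m * pI c l) * ex (fun w => (1 + Phi l w) ^ m * Px (c :: X) w) := h3
      _ ≤ (ex (Px X) + (m + 1) * 2 ^ m * B * ex (fun w => Phi l w * Px X w)) +
          ((m + 1) * 2 ^ m * pI c l) * (B * ex (Px (c :: X))) := add_le_add h1 h4
      _ = _ := by ring

/-! TARGET moment_multi -/

theorem moment_multi (m : ℕ) (l : List (Cyl L)) {θ : ℝ} (hθ : 0 < θ) (hθ1 : θ ≤ 1)
    (hl : Good θ l) (X : List (Cyl L)) (hX : X ≠ []) (hx : ∀ x ∈ X, ∀ c ∈ l, c.n ≤ x.n)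
    (hp : ∀ x ∈ X, θ ≤ pI x l) :
    ex (fun w => (1 + Phi l w) ^ m * Px X w)
      ≤ Kc m X.length * (1 + Real.log (1 / θ)) ^ m * ex (Px X) := by
  have hlog : 0 ≤ Real.log (1 / θ) := Real.log_nonneg (by rw [le_div_iff₀ hθ]; linarith)
  obtain ⟨lg, hlg⟩ : ∃ lg : ℝ, lg = Real.log (1 / θ) := ⟨_, rfl⟩
  rw [← hlg] at hlog
  rw [← hlg]
  induction m generalizing X l with
  | zero =>
    simp [Kc]
  | succ m ih =>
    have hexX : 0 ≤ ex (Px X) := ex_nonneg (Px_nonneg X)
    have hK := j8278_Kc m (X.length + 1)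
    have hLm : 0 ≤ (1 + lg) ^ m := by positivity
    have h1 := j8278_claim m (θ := θ) (Kc m (X.length + 1) * (1 + lg) ^ m) X (by
      intro l' c hl' hx' hp'
      have := ih l' hl' (c :: X) (List.cons_ne_nil _ _) hx' hp'
      simpa using this) l hl hx hp
    have h2 := overlap_multi l hθ hl X hX hx hp
    rw [← hlg] at h2
    have hn : (0 : ℝ) ≤ X.length := Nat.cast_nonneg _
    have h3 : ex (fun w => Phi l w * Px X w) ≤ X.length * (1 + lg) * ex (Px X) := by
      refine h2.trans (mul_le_mul_of_nonneg_right ?_ hexX)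
      nlinarith
    have hC : 0 ≤ ((m : ℝ) + 1) * 2 ^ m * (Kc m (X.length + 1) * (1 + lg) ^ m) := by positivity
    have h4 := mul_le_mul_of_nonneg_left h3 hC
    have h5 : (1 : ℝ) ≤ (1 + lg) ^ (m + 1) := one_le_pow₀ (by linarith)
    have h6 : ex (Px X) ≤ (1 + lg) ^ (m + 1) * ex (Px X) := by nlinarith
    refine h1.trans ?_
    have h7 : Kc (m + 1) X.length = 1 + (m + 1) * 2 ^ m * X.length * Kc m (X.length + 1) := by
      rw [Kc]
    rw [h7]
    calc ex (Px X) + (m + 1) * 2 ^ m * (Kc m (X.length + 1) * (1 + lg) ^ m) *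
          ex (fun w => Phi l w * Px X w)
        ≤ (1 + lg) ^ (m + 1) * ex (Px X) +
          ((m : ℝ) + 1) * 2 ^ m * (Kc m (X.length + 1) * (1 + lg) ^ m) *
            (X.length * (1 + lg) * ex (Px X)) := add_le_add h6 h4
      _ = _ := by ring

end K5
end

alias moment_multi := K5.moment_multi

section
/-! moment -/
namespace K6

/-! TARGET moment -/

theorem Kc_nonneg_aux (m : ℕ) : ∀ n : ℕ, 0 ≤ Kc m n := by
  induction m with
  | zero => intro n; simp [Kc]
  | succ m ih =>
    intro n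
    have h := ih (n + 1)
    rw [Kc]
    positivity

theorem pow_aux (m : ℕ) (P t : ℝ) (hP : 0 ≤ P) (ht : 0 ≤ t) :
    (t + P) ^ (m + 1) ≤ P ^ (m + 1) + (m + 1) * t * (t + P) ^ m := by
  induction m with
  | zero => simp [add_comm]
  | succ m ih =>
    have h1 : (t + P) ^ (m + 1 + 1) = P * (t + P) ^ (m + 1) + t * (t + P) ^ (m + 1) := by ring
    have h2 : P * (t + P) ^ (m + 1) ≤ P * (P ^ (m + 1) + (m + 1) * t * (t + P) ^ m) :=
      mul_le_mul_of_nonneg_left ih hP
    have h3 : P * ((m + 1) * t * (t + P) ^ m) ≤ (t + P) * ((m + 1) * t * (t + P) ^ m) := by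
      apply mul_le_mul_of_nonneg_right (by linarith)
      positivity
    rw [h1]
    push_cast
    calc P * (t + P) ^ (m + 1) + t * (t + P) ^ (m + 1)
        ≤ P * (P ^ (m + 1) + (m + 1) * t * (t + P) ^ m) + t * (t + P) ^ (m + 1) := by linarith
      _ = P ^ (m + 1 + 1) + P * ((m + 1) * t * (t + P) ^ m) + t * (t + P) ^ (m + 1) := by ring
      _ ≤ P ^ (m + 1 + 1) + (t + P) * ((m + 1) * t * (t + P) ^ m) + t * (t + P) ^ (m + 1) := by
          linarith
      _ = P ^ (m + 1 + 1) + (m + 1 + 1) * t * (t + P) ^ (m + 1) := by ring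

theorem moment (m : ℕ) (l : List (Cyl L)) {θ : ℝ} (hθ : 0 < θ) (hθ1 : θ ≤ 1) (hl : Good θ l) :
    ex (fun w => Phi l w ^ (m + 1))
      ≤ (m + 1) * 2 ^ m * Kc m 1 * (1 + Real.log (1 / θ)) ^ m * ex (Phi l) := by
  induction l with
  | nil =>
    have h1 : (fun w => Phi ([] : List (Cyl L)) w ^ (m + 1)) = fun _ => (0 : ℝ) := by
      funext w
      simp [Phi]
    have h2 : Phi ([] : List (Cyl L)) = fun _ => (0 : ℝ) := by
      funext w
      simp [Phi]
    rw [h1, h2, ex_const]
    simp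
  | cons c l ih =>
    obtain ⟨hp, hn, hg⟩ := hl
    have ih' := ih hg
    have hL : 0 ≤ Real.log (1 / θ) := Real.log_nonneg (by rw [le_div_iff₀ hθ]; linarith)
    obtain ⟨Λ, hΛ⟩ : ∃ Λ : ℝ, Λ = 1 + Real.log (1 / θ) := ⟨_, rfl⟩
    have hmm := moment_multi m l hθ hθ1 hg [c] (by simp)
      (by
        intro x hx c' hc'
        rw [List.mem_singleton] at hx
        subst hx
        exact hn c' hc')
      (by
        intro x hx
        rw [List.mem_singleton] at hx
        subst hx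
        exact hp)
    rw [← hΛ] at hmm ih' ⊢
    have hΛ0 : 0 ≤ Λ := by rw [hΛ]; linarith
    have hPx : Px [c] = c.i := by
      funext w
      simp [Px]
    rw [hPx, List.length_singleton] at hmm
    have hK := Kc_nonneg_aux m 1
    have hpt : ∀ w, Phi (c :: l) w ^ (m + 1) ≤
        Phi l w ^ (m + 1) + ((m + 1) * pI c l) * ((1 + Phi l w) ^ m * c.i w) := by
      intro w
      have h1 : Phi (c :: l) w = pI c l * c.i w + Phi l w := rfl
      have hP := Phi_nonneg l w
      have hi0 := c.i_nonneg w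
      have hi1 := c.i_le_one w
      have hp0 := pI_nonneg c l
      have hp1 := pI_le_one c l
      have ht0 : 0 ≤ pI c l * c.i w := mul_nonneg hp0 hi0
      have ht1 : pI c l * c.i w ≤ 1 := by nlinarith
      rw [h1]
      have h2 := pow_aux m (Phi l w) (pI c l * c.i w) hP ht0
      have h3 : (pI c l * c.i w + Phi l w) ^ m ≤ (1 + Phi l w) ^ m :=
        pow_le_pow_left₀ (by linarith) (by linarith) m
      have h4 : (m + 1) * (pI c l * c.i w) * (pI c l * c.i w + Phi l w) ^ m ≤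
          (m + 1) * (pI c l * c.i w) * (1 + Phi l w) ^ m :=
        mul_le_mul_of_nonneg_left h3 (by positivity)
      calc _ ≤ _ := h2
        _ ≤ Phi l w ^ (m + 1) + (m + 1) * (pI c l * c.i w) * (1 + Phi l w) ^ m := by linarith
        _ = _ := by ring
    have h5 := ex_mono hpt
    rw [ex_add, ex_smul] at h5
    have h6 : ex (Phi (c :: l)) = pI c l * ex c.i + ex (Phi l) := by
      have h7 : Phi (c :: l) = fun w => pI c l * c.i w + Phi l w := by funext w; rfl
      rw [h7, ex_add, ex_smul]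
    have hp0 := pI_nonneg c l
    have hic := c.i_pos
    have h8 : ((m : ℝ) + 1) * pI c l * ex (fun w => (1 + Phi l w) ^ m * c.i w) ≤
        ((m : ℝ) + 1) * pI c l * (Kc m 1 * Λ ^ m * ex c.i) :=
      mul_le_mul_of_nonneg_left hmm (by positivity)
    have h9 : (1 : ℝ) ≤ 2 ^ m := one_le_pow₀ (by norm_num)
    have h10 : ((m : ℝ) + 1) * pI c l * (Kc m 1 * Λ ^ m * ex c.i) ≤
        2 ^ m * (((m : ℝ) + 1) * pI c l * (Kc m 1 * Λ ^ m * ex c.i)) := by
      apply le_mul_of_one_le_left _ h9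
      positivity
    rw [h6]
    calc ex (fun w => Phi (c :: l) w ^ (m + 1))
        ≤ ex (fun w => Phi l w ^ (m + 1)) +
          ((m : ℝ) + 1) * pI c l * ex (fun w => (1 + Phi l w) ^ m * c.i w) := h5
      _ ≤ (m + 1) * 2 ^ m * Kc m 1 * Λ ^ m * ex (Phi l) +
          2 ^ m * (((m : ℝ) + 1) * pI c l * (Kc m 1 * Λ ^ m * ex c.i)) := by linarith
      _ = _ := by ring

end K6
end

alias moment := K6.moment

section
/-! selection -/
namespace K7

/-! TARGET selection -/

theorem selection_aux (w : (V → Bool) → ℝ) (Λ : ℝ) {θ : ℝ} (hθ : 0 < θ)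
    (all : List (Cyl L)) (hs : all.Pairwise fun a b => b.n ≤ a.n) :
    ∃ l : List (Cyl L), (∀ c ∈ l, c ∈ all) ∧ Good θ l ∧
      (∀ c ∈ l, Λ * ex c.i ≤ ex (fun o => w o * c.i o)) ∧
      (∀ c ∈ all, Λ * ex c.i ≤ ex (fun o => w o * c.i o) →
        ex (fun o => Nn l o * c.i o) ≤ θ * ex c.i) := by
  induction all with
  | nil => exact ⟨[], by simp, trivial, by simp, by simp⟩
  | cons c all' ih =>
    rw [List.pairwise_cons] at hs
    obtain ⟨l, h1, h2, h3, h4⟩ := ih hs.2
    by_cases hc : Λ * ex c.i ≤ ex (fun o => w o * c.i o)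
    · by_cases hp : θ ≤ pI c l
      · refine ⟨c :: l, ?_, ⟨hp, fun c' hc' => hs.1 c' (h1 c' hc'), h2⟩, ?_, ?_⟩
        · intro d hd
          rcases List.mem_cons.mp hd with rfl | hd
          · exact List.mem_cons_self
          · exact List.mem_cons_of_mem _ (h1 d hd)
        · intro d hd
          rcases List.mem_cons.mp hd with rfl | hd
          · exact hc
          · exact h3 d hd
        · intro d hd hdΛ
          rcases List.mem_cons.mp hd with rfl | hd
          · have h5 : (fun o => Nn (d :: l) o * d.i o) = fun _ => (0 : ℝ) := by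
              funext o
              rw [Nn_cons]
              have := d.i_mul_self o
              linear_combination (-(Nn l o)) * this
            rw [h5, ex_const]
            exact mul_nonneg hθ.le d.i_pos.le
          · refine le_trans ?_ (h4 d hd hdΛ)
            exact ex_mono fun o => mul_le_mul_of_nonneg_right (Nn_cons_le c l o) (d.i_nonneg o)
      · refine ⟨l, fun d hd => List.mem_cons_of_mem _ (h1 d hd), h2, h3, ?_⟩
        intro d hd hdΛ
        rcases List.mem_cons.mp hd with rfl | hd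
        · rw [← pI_mul]
          exact mul_le_mul_of_nonneg_right (not_le.mp hp).le d.i_pos.le
        · exact h4 d hd hdΛ
    · refine ⟨l, fun d hd => List.mem_cons_of_mem _ (h1 d hd), h2, h3, ?_⟩
      intro d hd hdΛ
      rcases List.mem_cons.mp hd with rfl | hd
      · exact absurd hdΛ hc
      · exact h4 d hd hdΛ

theorem selection (w : (V → Bool) → ℝ) (Λ : ℝ) {θ : ℝ} (hθ : 0 < θ) (hθ1 : θ ≤ 1)
    (all : List (Cyl L)) (hs : all.Pairwise fun a b => b.n ≤ a.n) :
    ∃ l : List (Cyl L), Good θ l ∧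
      (∀ c ∈ l, Λ * ex c.i ≤ ex (fun o => w o * c.i o)) ∧
      (∀ c ∈ all, Λ * ex c.i ≤ ex (fun o => w o * c.i o) →
        ex (fun o => Nn l o * c.i o) ≤ θ * ex c.i) := by
  obtain ⟨l, -, h2, h3, h4⟩ := selection_aux w Λ hθ all hs
  exact ⟨l, h2, h3, h4⟩

end K7
end

alias selection := K7.selection

section
/-! weak_type -/
namespace K8

theorem Kc_pos (m : ℕ) : ∀ n, 0 < Kc m n := by
  induction m with
  | zero => intro n; simp [Kc]
  | succ m ih =>
    intro n
    have := ih (n + 1)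
    simp only [Kc]
    positivity

theorem step1 (w : (V → Bool) → ℝ) (Λ : ℝ) (l : List (Cyl L))
    (h : ∀ c ∈ l, Λ * ex c.i ≤ ex (fun o => w o * c.i o)) :
    Λ * ex (Phi l) ≤ ex (fun o => w o * Phi l o) := by
  induction l with
  | nil =>
    have h1 : Phi ([] : List (Cyl L)) = fun _ => 0 := by funext w; rfl
    rw [h1, ex_const]
    simp only [mul_zero]
    rw [ex_const]
  | cons c l ih =>
    have ih' := ih (fun c' hc' => h c' (List.mem_cons_of_mem _ hc'))
    have hc := h c List.mem_cons_self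
    have h1 : Phi (c :: l) = fun w => pI c l * c.i w + Phi l w := by funext w; rfl
    have h2 : (fun o => w o * Phi (c :: l) o) =
        fun o => pI c l * (w o * c.i o) + w o * Phi l o := by
      funext o; rw [h1]; ring
    rw [h2, h1, ex_add, ex_add, ex_smul, ex_smul]
    have := mul_le_mul_of_nonneg_left hc (pI_nonneg c l)
    have e : ex (fun w => c.i w) = ex c.i := rfl
    rw [e]
    linarith

theorem young_aux (m : ℕ) (hm : 1 ≤ m) {a b t : ℝ} (ha : 0 ≤ a) (hb : 0 ≤ b) (ht : 0 < t) :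
    a * b ≤ t ^ (1 + 1 / (m : ℝ)) * a ^ (1 + 1 / (m : ℝ)) + (t ^ (m + 1))⁻¹ * b ^ (m + 1) := by
  have hm0 : (0 : ℝ) < m := by exact_mod_cast hm
  have hconj : (1 + 1 / (m : ℝ)).HolderConjugate ((m : ℝ) + 1) := by
    rw [Real.holderConjugate_iff]
    constructor
    · have : 0 < 1 / (m : ℝ) := by positivity
      linarith
    · field_simp
  have h := Real.young_inequality_of_nonneg (a := t * a) (b := b / t) (by positivity)
    (by positivity) hconj
  have h1 : t * a * (b / t) = a * b := by field_simp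
  have h2 : (t * a) ^ (1 + 1 / (m : ℝ)) / (1 + 1 / (m : ℝ)) ≤
      t ^ (1 + 1 / (m : ℝ)) * a ^ (1 + 1 / (m : ℝ)) := by
    rw [Real.mul_rpow ht.le ha]
    refine div_le_self (by positivity) ?_
    have : 0 < 1 / (m : ℝ) := by positivity
    linarith
  have h3 : (b / t) ^ ((m : ℝ) + 1) / ((m : ℝ) + 1) ≤ (t ^ (m + 1))⁻¹ * b ^ (m + 1) := by
    have e : (b / t) ^ ((m : ℝ) + 1) = (t ^ (m + 1))⁻¹ * b ^ (m + 1) := by
      have : (m : ℝ) + 1 = ((m + 1 : ℕ) : ℝ) := by push_cast; ring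
      rw [this, Real.rpow_natCast, div_pow, div_eq_inv_mul]
    rw [e]
    exact div_le_self (by positivity) (by linarith)
  rw [h1] at h
  linarith

/-! TARGET weak_type -/

theorem weak_type (m : ℕ) (hm : 1 ≤ m) : ∃ C : ℝ, 0 < C ∧
    ∀ (V : Type) [LinearOrder V] [Fintype V] (L : Lev V) (w : (V → Bool) → ℝ) (Λ θ : ℝ)
      (l : List (Cyl L)), (∀ o, 0 ≤ w o) → 0 < Λ → 0 < θ → θ ≤ 1 → Good θ l →
      (∀ c ∈ l, Λ * ex c.i ≤ ex (fun o => w o * c.i o)) →
      ex (fun o => 1 - Nn l o) ≤ C * (1 + Real.log (1 / θ)) * Λ ^ (-(1 + 1 / (m : ℝ)))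
        * ex (fun o => if Λ / 2 < w o then (w o) ^ (1 + 1 / (m : ℝ)) else 0) := by
  have hm0 : (0 : ℝ) < m := by exact_mod_cast hm
  obtain ⟨M, hM⟩ : ∃ M : ℝ, M = (m + 1) * 2 ^ m * Kc m 1 := ⟨_, rfl⟩
  have hMpos : 0 < M := by
    rw [hM]
    have := Kc_pos m 1
    positivity
  refine ⟨4 * (4 * M) ^ (1 / (m : ℝ)), by positivity, ?_⟩
  intro V _ _ L w Λ θ l hw hΛ hθ hθ1 hl hc
  have hmom := moment m l hθ hθ1 hl
  rw [← hM] at hmom
  obtain ⟨G, hG⟩ : ∃ G : ℝ, G = 1 + Real.log (1 / θ) := ⟨_, rfl⟩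
  have hG1 : 1 ≤ G := by
    rw [hG]
    have : 0 ≤ Real.log (1 / θ) := by
      apply Real.log_nonneg
      rw [le_div_iff₀ hθ]; linarith
    linarith
  rw [← hG] at hmom ⊢
  have hG0 : 0 < G := by linarith
  rw [← ex_Phi]
  obtain ⟨P, hP⟩ : ∃ P : ℝ, P = ex (Phi l) := ⟨_, rfl⟩
  have hP0 : 0 ≤ P := by rw [hP]; exact ex_nonneg (Phi_nonneg l)
  rw [← hP] at hmom ⊢
  obtain ⟨w1, hw1⟩ : ∃ w1 : (V → Bool) → ℝ, ∀ o, w1 o = if Λ / 2 < w o then w o else 0 :=
    ⟨_, fun _ => rfl⟩
  have hw1n : ∀ o, 0 ≤ w1 o := by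
    intro o; rw [hw1]; split_ifs
    · exact hw o
    · exact le_rfl
  have hw1w : ∀ o, w o ≤ w1 o + Λ / 2 := by
    intro o; rw [hw1]; split_ifs with h
    · linarith
    · linarith [not_lt.1 h]
  have s1 := step1 w Λ l hc
  rw [← hP] at s1
  have s2 : Λ / 2 * P ≤ ex (fun o => w1 o * Phi l o) := by
    have h1 : ex (fun o => w o * Phi l o) ≤ ex (fun o => w1 o * Phi l o + (Λ / 2) * Phi l o) := by
      refine ex_mono fun o => ?_
      have := mul_le_mul_of_nonneg_right (hw1w o) (Phi_nonneg l o)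
      linarith
    rw [ex_add, ex_smul] at h1
    have e : ex (fun o => Phi l o) = P := hP.symm
    rw [e] at h1
    linarith
  -- the parameter
  obtain ⟨u, hu⟩ : ∃ u : ℝ, u = 4 * M * G ^ m / Λ := ⟨_, rfl⟩
  have hu0 : 0 < u := by rw [hu]; positivity
  obtain ⟨t, ht⟩ : ∃ t : ℝ, t = u ^ (1 / ((m : ℝ) + 1)) := ⟨_, rfl⟩
  have ht0 : 0 < t := by rw [ht]; positivity
  have ht1 : t ^ (m + 1) = u := by
    rw [ht, ← Real.rpow_natCast, ← Real.rpow_mul hu0.le]
    have : 1 / ((m : ℝ) + 1) * ((m + 1 : ℕ) : ℝ) = 1 := by push_cast; field_simp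
    rw [this, Real.rpow_one]
  have ht2 : t ^ (1 + 1 / (m : ℝ)) = u ^ (1 / (m : ℝ)) := by
    rw [ht, ← Real.rpow_mul hu0.le]
    congr 1
    field_simp
  have s3 : ex (fun o => w1 o * Phi l o) ≤
      u ^ (1 / (m : ℝ)) * ex (fun o => w1 o ^ (1 + 1 / (m : ℝ))) +
      u⁻¹ * ex (fun o => Phi l o ^ (m + 1)) := by
    rw [← ex_smul, ← ex_smul, ← ex_add]
    refine ex_mono fun o => ?_
    have := young_aux m hm (hw1n o) (Phi_nonneg l o) ht0
    rw [ht1, ht2] at this
    exact this
  have s4 : u⁻¹ * ex (fun o => Phi l o ^ (m + 1)) ≤ Λ / 4 * P := by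
    refine (mul_le_mul_of_nonneg_left hmom (inv_nonneg.2 hu0.le)).trans (le_of_eq ?_)
    rw [hu]
    have : G ^ m ≠ 0 := by positivity
    field_simp
  have hE : ex (fun o => w1 o ^ (1 + 1 / (m : ℝ))) =
      ex (fun o => if Λ / 2 < w o then (w o) ^ (1 + 1 / (m : ℝ)) else 0) := by
    congr 1
    funext o
    rw [hw1]
    split_ifs
    · rfl
    · rw [Real.zero_rpow]
      have : 0 < 1 / (m : ℝ) := by positivity
      linarith
  rw [hE] at s3
  obtain ⟨E, hEE⟩ : ∃ E : ℝ,
    E = ex (fun o => if Λ / 2 < w o then (w o) ^ (1 + 1 / (m : ℝ)) else 0) := ⟨_, rfl⟩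
  rw [← hEE] at s3 ⊢
  have s5 : u ^ (1 / (m : ℝ)) = (4 * M) ^ (1 / (m : ℝ)) * G * Λ ^ (-(1 / (m : ℝ))) := by
    rw [hu, Real.div_rpow (by positivity) hΛ.le, Real.mul_rpow (by positivity) (by positivity),
      Real.rpow_neg hΛ.le, div_eq_mul_inv]
    congr 2
    rw [← Real.rpow_natCast G m, ← Real.rpow_mul hG0.le]
    have : (m : ℝ) * (1 / (m : ℝ)) = 1 := by field_simp
    rw [this, Real.rpow_one]
  have s6 : Λ ^ (-(1 + 1 / (m : ℝ))) = Λ⁻¹ * Λ ^ (-(1 / (m : ℝ))) := by
    rw [neg_add, Real.rpow_add hΛ, Real.rpow_neg_one]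
  rw [s6]
  have s7 : Λ / 4 * P ≤ (4 * M) ^ (1 / (m : ℝ)) * G * Λ ^ (-(1 / (m : ℝ))) * E := by
    rw [← s5]
    linarith
  have s8 := mul_le_mul_of_nonneg_left s7 (by positivity : (0 : ℝ) ≤ 4 * Λ⁻¹)
  calc P = 4 * Λ⁻¹ * (Λ / 4 * P) := by field_simp
    _ ≤ _ := s8
    _ = _ := by ring

end K8
end

alias weak_type := K8.weak_type

section
/-! operator -/
namespace K9

/-! TARGET operator -/

theorem sum_wt (K : ℕ) : ∑ k ∈ Finset.range (K+1), (1 + 2 * (k:ℝ)) * (1/2)^k
    = 6 - (2 * K + 5) * (1/2)^K := by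
  induction K with
  | zero => norm_num
  | succ K ih => rw [Finset.sum_range_succ, ih]; push_cast; rw [pow_succ]; ring

theorem sum_wt_le (n : ℕ) : ∑ k ∈ Finset.range n, (1 + 2 * (k:ℝ)) * (1/2)^k ≤ 6 := by
  cases n with
  | zero => norm_num
  | succ K =>
    rw [sum_wt]
    have : 0 ≤ (2 * (K:ℝ) + 5) * (1/2)^K := by positivity
    linarith

theorem geo_pt (s : ℝ) (hs : 0 < s) (y : ℝ) (hy : 1 ≤ y) (J : ℕ) :
    ∑ j ∈ Finset.range J, (if (2:ℝ)^(j+1) / 2 < y then ((2:ℝ)^(j+1))^s else 0)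
      ≤ (2:ℝ)^s / ((2:ℝ)^s - 1) * (2 * y)^s := by
  have hx : (1:ℝ) < (2:ℝ)^s := Real.one_lt_rpow (by norm_num) hs
  have hx1 : 0 < (2:ℝ)^s - 1 := by linarith
  have hR : 0 ≤ (2:ℝ)^s / ((2:ℝ)^s - 1) * (2 * y)^s := by positivity
  have hpw : ∀ n : ℕ, ((2:ℝ)^n)^s = ((2:ℝ)^s)^n := fun n => by
    rw [← Real.rpow_natCast, ← Real.rpow_mul (by norm_num), mul_comm,
      Real.rpow_mul (by norm_num), Real.rpow_natCast]
  induction J with
  | zero => simpa using hR
  | succ J ih =>
    by_cases h : (2:ℝ)^(J+1) / 2 < y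
    · have h1 : ∑ j ∈ Finset.range (J+1), (if (2:ℝ)^(j+1) / 2 < y then ((2:ℝ)^(j+1))^s else 0)
          ≤ ∑ j ∈ Finset.range (J+1), ((2:ℝ)^s)^(j+1) := by
        refine Finset.sum_le_sum fun j _ => ?_
        split_ifs
        · exact (hpw _).le
        · positivity
      have h2 : ∀ n : ℕ, ∑ j ∈ Finset.range n, ((2:ℝ)^s)^(j+1)
          ≤ (2:ℝ)^s / ((2:ℝ)^s - 1) * ((2:ℝ)^s)^n := by
        intro n
        induction n with
        | zero => simp; positivity
        | succ n ihn =>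
          rw [Finset.sum_range_succ]
          refine le_trans (add_le_add_left ihn _) ?_
          generalize (2:ℝ)^s = x at *
          have e : x / (x - 1) * x ^ (n+1) - (x / (x - 1) * x ^ n + x ^ (n + 1)) = 0 := by
            field_simp
            ring
          linarith
      refine h1.trans ((h2 _).trans ?_)
      refine mul_le_mul_of_nonneg_left ?_ (by positivity)
      rw [← hpw]
      refine Real.rpow_le_rpow (by positivity) ?_ hs.le
      linarith
    · rw [Finset.sum_range_succ, if_neg h, add_zero]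
      exact ih

theorem sum_dyad (n : ℕ) :
    (1/2:ℝ)^n + ∑ i ∈ Finset.range n, (1/2:ℝ)^i * (1/4)^(n - i - 1) ≤ 5 * (1/2)^n := by
  have h : ∑ i ∈ Finset.range n, (1/2:ℝ)^i * (1/4)^(n - i - 1)
      = 4 * (1/2)^n - 4 * (1/4)^n := by
    rw [← Finset.sum_range_reflect]
    have h1 : ∑ j ∈ Finset.range n, (1/2:ℝ)^(n - 1 - j) * (1/4)^(n - (n - 1 - j) - 1)
        = ∑ j ∈ Finset.range n, 2 * (1/2:ℝ)^n * (1/2)^j := by
      refine Finset.sum_congr rfl fun j hj => ?_
      have hj' := Finset.mem_range.mp hj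
      obtain ⟨d, rfl⟩ : ∃ d, n = j + d + 1 := ⟨n - j - 1, by omega⟩
      have e1 : j + d + 1 - 1 - j = d := by omega
      have e2 : j + d + 1 - d - 1 = j := by omega
      rw [e1, e2]
      have : (1/4:ℝ) = (1/2) * (1/2) := by norm_num
      rw [this, mul_pow, pow_add, pow_add]
      ring
    rw [h1, ← Finset.mul_sum]
    rw [geom_sum_eq (by norm_num)]
    have : (1/4:ℝ) = (1/2) * (1/2) := by norm_num
    rw [this, mul_pow]
    ring
  rw [h]
  have : (0:ℝ) ≤ (1/4)^n := by positivity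
  linarith

theorem operator (r : ℝ) (hr : 1 < r) : ∃ C : ℝ, 1 ≤ C ∧
    ∀ (V : Type) [LinearOrder V] [Fintype V] (L : Lev V) (all : List (Cyl L)),
      all.Pairwise (fun a b => b.n ≤ a.n) → ∀ w : (V → Bool) → ℝ, (∀ o, 1 ≤ w o) →
      ∃ u : (V → Bool) → ℝ, (∀ o, 1 ≤ u o) ∧
        ex (fun o => u o ^ r) ≤ C * ex (fun o => w o ^ r) ∧
        ∀ c ∈ all, ex (fun o => (u o)⁻¹ * c.i o) * ex (fun o => w o * c.i o)
          ≤ 10 * ex c.i ^ 2 := by
  -- choose m
  obtain ⟨m, hm1, hmr⟩ : ∃ m : ℕ, 1 ≤ m ∧ 1 + 1 / (m:ℝ) < r := by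
    obtain ⟨n, hn⟩ := exists_nat_one_div_lt (sub_pos.mpr hr)
    refine ⟨n + 1, by omega, ?_⟩
    push_cast
    linarith
  obtain ⟨Cw, hCw, hweak⟩ := weak_type m hm1
  set q : ℝ := 1 + 1 / (m:ℝ) with hq
  set s : ℝ := r - q with hs
  have hs0 : 0 < s := by rw [hs]; linarith
  have hx : (1:ℝ) < (2:ℝ)^s := Real.one_lt_rpow (by norm_num) hs0
  have hx1 : 0 < (2:ℝ)^s - 1 := by linarith
  have hr0 : 0 < r := by linarith
  have hq0 : 0 < q := by rw [hq]; positivity
  refine ⟨1 + 6 * Cw * ((2:ℝ)^s / ((2:ℝ)^s - 1)) * (2:ℝ)^s, ?_, ?_⟩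
  · have : 0 ≤ 6 * Cw * ((2:ℝ)^s / ((2:ℝ)^s - 1)) * (2:ℝ)^s := by positivity
    linarith
  intro V _ _ L all hall w hw
  have hw0 : ∀ o, 0 ≤ w o := fun o => by linarith [hw o]
  -- a bound for w
  obtain ⟨J, hJ⟩ : ∃ J : ℕ, ∀ o, w o < 2^J := by
    obtain ⟨J, hJ⟩ := pow_unbounded_of_one_lt (∑ o, w o) (by norm_num : (1:ℝ) < 2)
    refine ⟨J, fun o => lt_of_le_of_lt ?_ hJ⟩
    exact Finset.single_le_sum (fun i _ => hw0 i) (Finset.mem_univ o)
  -- the selected lists
  have hsel : ∀ j k : ℕ, ∃ l : List (Cyl L), Good ((1/4:ℝ)^k) l ∧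
      (∀ c ∈ l, (2:ℝ)^j * ex c.i ≤ ex (fun o => w o * c.i o)) ∧
      (∀ c ∈ all, (2:ℝ)^j * ex c.i ≤ ex (fun o => w o * c.i o) →
        ex (fun o => Nn l o * c.i o) ≤ (1/4:ℝ)^k * ex c.i) := fun j k =>
    selection w ((2:ℝ)^j) (by positivity) (pow_le_one₀ (by norm_num) (by norm_num)) all hall
  choose l hl1 hl2 hl3 using hsel
  set F : (V → Bool) → ℝ := fun o => 1 + ∑ j ∈ Finset.range J, ∑ k ∈ Finset.range (j+2),
    ((2:ℝ)^(j+1-k))^r * (1 - Nn (l (j+1) k) o) with hF
  have hD : ∀ j k o, 0 ≤ 1 - Nn (l j k) o := fun j k o => sub_nonneg.mpr (Nn_le_one _ _)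
  have hterm : ∀ j k o, 0 ≤ ((2:ℝ)^(j+1-k))^r * (1 - Nn (l (j+1) k) o) := fun j k o =>
    mul_nonneg (by positivity) (hD _ _ _)
  have hF1 : ∀ o, 1 ≤ F o := fun o => by
    have : 0 ≤ ∑ j ∈ Finset.range J, ∑ k ∈ Finset.range (j+2),
      ((2:ℝ)^(j+1-k))^r * (1 - Nn (l (j+1) k) o) :=
      Finset.sum_nonneg fun j _ => Finset.sum_nonneg fun k _ => hterm j k o
    simp only [hF]
    linarith
  have hF2 : ∀ j ∈ Finset.range J, ∀ k ∈ Finset.range (j+2), ∀ o, Nn (l (j+1) k) o = 0 →
      ((2:ℝ)^(j+1-k))^r ≤ F o := by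
    intro j hj k hk o ho
    have h1 : ∑ k ∈ Finset.range (j+2), ((2:ℝ)^(j+1-k))^r * (1 - Nn (l (j+1) k) o)
        ≤ ∑ j ∈ Finset.range J, ∑ k ∈ Finset.range (j+2),
          ((2:ℝ)^(j+1-k))^r * (1 - Nn (l (j+1) k) o) :=
      Finset.single_le_sum (f := fun j => ∑ k ∈ Finset.range (j+2),
          ((2:ℝ)^(j+1-k))^r * (1 - Nn (l (j+1) k) o))
        (fun j _ => Finset.sum_nonneg fun k _ => hterm j k o) hj
    have h2 : ((2:ℝ)^(j+1-k))^r * (1 - Nn (l (j+1) k) o)
        ≤ ∑ k ∈ Finset.range (j+2), ((2:ℝ)^(j+1-k))^r * (1 - Nn (l (j+1) k) o) :=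
      Finset.single_le_sum (f := fun k => ((2:ℝ)^(j+1-k))^r * (1 - Nn (l (j+1) k) o))
        (fun k _ => hterm j k o) hk
    rw [ho, sub_zero, mul_one] at h2
    simp only [hF]
    linarith
  set u : (V → Bool) → ℝ := fun o => (F o)^(1/r) with hu
  have hu1 : ∀ o, 1 ≤ u o := fun o => Real.one_le_rpow (hF1 o) (by positivity)
  have hur : ∀ o, u o ^ r = F o := fun o => by
    simp only [hu]
    rw [← Real.rpow_mul (by linarith [hF1 o]), one_div, inv_mul_cancel₀ hr0.ne', Real.rpow_one]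
  have hu2 : ∀ j ∈ Finset.range J, ∀ k ∈ Finset.range (j+2), ∀ o, Nn (l (j+1) k) o = 0 →
      (2:ℝ)^(j+1-k) ≤ u o := by
    intro j hj k hk o ho
    have h := hF2 j hj k hk o ho
    rw [← hur] at h
    exact (Real.rpow_le_rpow_iff (by positivity) (by linarith [hu1 o]) hr0).mp h
  refine ⟨u, hu1, ?_, ?_⟩
  · -- part (a)
    have e1 : (fun o => u o ^ r) = fun o => 1 + ∑ j ∈ Finset.range J,
        ∑ k ∈ Finset.range (j+2), ((2:ℝ)^(j+1-k))^r * (1 - Nn (l (j+1) k) o) := by
      funext o; rw [hur]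
    have e2 : ex (fun o => u o ^ r) = 1 + ∑ j ∈ Finset.range J,
        ∑ k ∈ Finset.range (j+2), ((2:ℝ)^(j+1-k))^r * ex (fun o => 1 - Nn (l (j+1) k) o) := by
      rw [e1, ex_add, ex_const, ex_sum]
      congr 1
      refine Finset.sum_congr rfl fun j _ => ?_
      rw [ex_sum]
      refine Finset.sum_congr rfl fun k _ => ?_
      rw [ex_smul]
    set E : ℕ → ℝ := fun j => ex (fun o => if (2:ℝ)^(j+1) / 2 < w o then (w o) ^ q else 0) with hE
    have hE0 : ∀ j, 0 ≤ E j := fun j => ex_nonneg fun o => by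
      split_ifs
      · exact Real.rpow_nonneg (hw0 o) _
      · exact le_rfl
    have hone : ∀ j k : ℕ, k ∈ Finset.range (j+2) →
        ((2:ℝ)^(j+1-k))^r * ex (fun o => 1 - Nn (l (j+1) k) o)
          ≤ Cw * (((2:ℝ)^(j+1))^s * E j) * ((1 + 2 * (k:ℝ)) * (1/2)^k) := by
      intro j k hk
      have hk' := Finset.mem_range.mp hk
      have h1 := hweak V L w ((2:ℝ)^(j+1)) ((1/4:ℝ)^k) (l (j+1) k) hw0 (by positivity)
        (by positivity) (pow_le_one₀ (by norm_num) (by norm_num)) (hl1 _ _) (hl2 _ _)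
      have hlog : 1 + Real.log (1 / (1/4:ℝ)^k) ≤ 1 + 2 * (k:ℝ) := by
        have e : (1 / (1/4:ℝ)^k) = 4^k := by
          rw [one_div, one_div, inv_pow, inv_inv]
        rw [e, Real.log_pow]
        have h4 : Real.log 4 ≤ 2 := by
          have : (4:ℝ) = 2^2 := by norm_num
          rw [this, Real.log_pow]
          have := Real.log_two_lt_d9
          push_cast
          linarith
        have : (k:ℝ) * Real.log 4 ≤ k * 2 := mul_le_mul_of_nonneg_left h4 (by positivity)
        linarith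
      have hpos : (0:ℝ) < (2:ℝ)^(j+1) := by positivity
      have hA : ((2:ℝ)^(j+1-k))^r ≤ ((2:ℝ)^(j+1))^r * (1/2)^k := by
        have e : (2:ℝ)^(j+1-k) = (2:ℝ)^(j+1) * (1/2)^k := by
          have : (2:ℝ)^(j+1) = 2^(j+1-k) * 2^k := by
            rw [← pow_add]; congr 1; omega
          rw [this, mul_assoc, ← mul_pow]
          norm_num
        rw [e, Real.mul_rpow (by positivity) (by positivity)]
        refine mul_le_mul_of_nonneg_left ?_ (by positivity)
        have h := Real.rpow_le_rpow_of_exponent_ge (x := (1/2:ℝ)^k) (by positivity)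
          (pow_le_one₀ (by norm_num) (by norm_num)) hr.le
        rwa [Real.rpow_one] at h
      have hs' : ((2:ℝ)^(j+1))^s = ((2:ℝ)^(j+1))^r * ((2:ℝ)^(j+1))^(-q) := by
        rw [← Real.rpow_add hpos]; congr 1
      have h2 : ex (fun o => 1 - Nn (l (j+1) k) o)
          ≤ Cw * (1 + 2 * (k:ℝ)) * ((2:ℝ)^(j+1))^(-q) * E j := by
        refine h1.trans ?_
        refine mul_le_mul_of_nonneg_right ?_ (hE0 j)
        refine mul_le_mul_of_nonneg_right ?_ (by positivity)
        exact mul_le_mul_of_nonneg_left hlog hCw.le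
      calc ((2:ℝ)^(j+1-k))^r * ex (fun o => 1 - Nn (l (j+1) k) o)
          ≤ (((2:ℝ)^(j+1))^r * (1/2)^k) * (Cw * (1 + 2 * (k:ℝ)) * ((2:ℝ)^(j+1))^(-q) * E j) := by
            refine mul_le_mul hA h2 (ex_nonneg fun o => hD _ _ o) (by positivity)
        _ = Cw * (((2:ℝ)^(j+1))^s * E j) * ((1 + 2 * (k:ℝ)) * (1/2)^k) := by
            rw [hs']; ring
    have hsum : ∑ j ∈ Finset.range J, ∑ k ∈ Finset.range (j+2),
        ((2:ℝ)^(j+1-k))^r * ex (fun o => 1 - Nn (l (j+1) k) o)
        ≤ ∑ j ∈ Finset.range J, 6 * Cw * (((2:ℝ)^(j+1))^s * E j) := by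
      refine Finset.sum_le_sum fun j _ => ?_
      refine (Finset.sum_le_sum fun k hk => hone j k hk).trans ?_
      rw [← Finset.mul_sum]
      have h6 := sum_wt_le (j+2)
      have hnn : 0 ≤ Cw * (((2:ℝ)^(j+1))^s * E j) :=
        mul_nonneg hCw.le (mul_nonneg (by positivity) (hE0 j))
      nlinarith [mul_le_mul_of_nonneg_left h6 hnn]
    have hint : ∑ j ∈ Finset.range J, (((2:ℝ)^(j+1))^s * E j)
        ≤ (2:ℝ)^s / ((2:ℝ)^s - 1) * (2:ℝ)^s * ex (fun o => w o ^ r) := by
      have e3 : ∑ j ∈ Finset.range J, (((2:ℝ)^(j+1))^s * E j)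
          = ex (fun o => ∑ j ∈ Finset.range J, ((2:ℝ)^(j+1))^s *
            (if (2:ℝ)^(j+1) / 2 < w o then (w o) ^ q else 0)) := by
        rw [ex_sum]
        refine Finset.sum_congr rfl fun j _ => ?_
        rw [ex_smul]
      rw [e3, ← ex_smul]
      refine ex_mono fun o => ?_
      have h1 := geo_pt s hs0 (w o) (hw o) J
      have hwq : 0 ≤ w o ^ q := Real.rpow_nonneg (hw0 o) _
      have h2 := mul_le_mul_of_nonneg_left h1 hwq
      rw [Finset.mul_sum] at h2
      refine le_trans (le_of_eq ?_) (h2.trans (le_of_eq ?_))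
      · refine Finset.sum_congr rfl fun j _ => ?_
        split_ifs
        · ring
        · ring
      · rw [Real.mul_rpow (by norm_num) (hw0 o)]
        have : w o ^ r = w o ^ q * w o ^ s := by
          rw [← Real.rpow_add (by linarith [hw o])]; congr 1; rw [hs]; ring
        rw [this]; ring
    have hwr : 1 ≤ ex (fun o => w o ^ r) := by
      have h := ex_mono (f := fun _ : V → Bool => (1:ℝ)) (g := fun o => w o ^ r)
        fun o => Real.one_le_rpow (hw o) hr0.le
      rwa [ex_const] at h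
    rw [e2]
    have h3 : ∑ j ∈ Finset.range J, 6 * Cw * (((2:ℝ)^(j+1))^s * E j)
        ≤ 6 * Cw * ((2:ℝ)^s / ((2:ℝ)^s - 1) * (2:ℝ)^s * ex (fun o => w o ^ r)) := by
      rw [← Finset.mul_sum]
      exact mul_le_mul_of_nonneg_left hint (by positivity)
    have h4 := hsum.trans h3
    calc 1 + ∑ j ∈ Finset.range J, ∑ k ∈ Finset.range (j+2),
        ((2:ℝ)^(j+1-k))^r * ex (fun o => 1 - Nn (l (j+1) k) o)
        ≤ ex (fun o => w o ^ r) +
          6 * Cw * ((2:ℝ)^s / ((2:ℝ)^s - 1) * (2:ℝ)^s * ex (fun o => w o ^ r)) :=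
          add_le_add hwr h4
      _ = _ := by ring
  · -- part (b)
    intro c hc
    have hci := c.i_pos
    -- average lies between 1 and 2^J
    have hlo : ex c.i ≤ ex (fun o => w o * c.i o) := by
      refine ex_mono fun o => ?_
      have h1 := c.i_nonneg o
      have h2 := hw o
      nlinarith
    have hhi : ex (fun o => w o * c.i o) ≤ (2:ℝ)^J * ex c.i := by
      rw [← ex_smul]
      refine ex_mono fun o => ?_
      exact mul_le_mul_of_nonneg_right (hJ o).le (c.i_nonneg o)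
    -- find the level
    obtain ⟨n, hnJ, hn1, hn2⟩ : ∃ n : ℕ, n ≤ J ∧ (2:ℝ)^n * ex c.i ≤ ex (fun o => w o * c.i o) ∧
        ex (fun o => w o * c.i o) ≤ 2 * 2^n * ex c.i := by
      classical
      have hex : ∃ n : ℕ, ex (fun o => w o * c.i o) ≤ (2:ℝ)^n * ex c.i := ⟨J, hhi⟩
      have hle : Nat.find hex ≤ J := Nat.find_min' hex hhi
      have hsp := Nat.find_spec hex
      rcases Nat.eq_zero_or_pos (Nat.find hex) with h0 | h0
      · rw [h0] at hsp
        refine ⟨0, Nat.zero_le _, by simpa using hlo, ?_⟩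
        have : ex (fun o => w o * c.i o) ≤ ex c.i := by simpa using hsp
        simp only [pow_zero, mul_one]
        linarith
      · obtain ⟨n, hn⟩ : ∃ n, Nat.find hex = n + 1 := ⟨Nat.find hex - 1, by omega⟩
        refine ⟨n, by omega, ?_, ?_⟩
        · have := Nat.find_min hex (m := n) (by omega)
          linarith
        · rw [hn] at hsp
          rw [pow_succ] at hsp
          linarith
    -- pointwise bound
    have hpt : ∀ o, ∀ i : ℕ, i ≤ n → (u o)⁻¹ ≤ (1/2:ℝ)^i +
        ∑ t ∈ Finset.range i, (1/2:ℝ)^t * Nn (l n (n - t - 1)) o := by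
      intro o i
      induction i with
      | zero =>
        intro _
        simp only [pow_zero, Finset.range_zero, Finset.sum_empty, add_zero]
        exact inv_le_one_of_one_le₀ (hu1 o)
      | succ i ih =>
        intro hi
        have hi' := ih (by omega)
        rw [Finset.sum_range_succ]
        rcases Nn_zero_or_one (l n (n - i - 1)) o with h | h
        · obtain ⟨d, rfl⟩ : ∃ d, n = i + d + 1 := ⟨n - i - 1, by omega⟩
          have e1 : i + d + 1 - i - 1 = d := by omega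
          rw [e1] at h
          have hbig := hu2 (i + d) (Finset.mem_range.mpr (by omega)) d
            (Finset.mem_range.mpr (by omega)) o h
          have e2 : i + d + 1 - d = i + 1 := by omega
          rw [e2] at hbig
          have h1 : (u o)⁻¹ ≤ (1/2:ℝ)^(i+1) := by
            rw [one_div, inv_pow]
            exact inv_anti₀ (by positivity) hbig
          have h2 : 0 ≤ ∑ t ∈ Finset.range i,
              (1/2:ℝ)^t * Nn (l (i + d + 1) (i + d + 1 - t - 1)) o :=
            Finset.sum_nonneg fun t _ => mul_nonneg (by positivity) (Nn_nonneg _ _)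
          have h3 : 0 ≤ (1/2:ℝ)^i * Nn (l (i + d + 1) (i + d + 1 - i - 1)) o :=
            mul_nonneg (by positivity) (Nn_nonneg _ _)
          linarith
        · rw [h, mul_one]
          have h1 : 0 ≤ (1/2:ℝ)^(i+1) := by positivity
          linarith
    have hup : ex (fun o => (u o)⁻¹ * c.i o) ≤ 5 * (1/2)^n * ex c.i := by
      have h1 : ex (fun o => (u o)⁻¹ * c.i o) ≤ ex (fun o => (1/2:ℝ)^n * c.i o +
          ∑ t ∈ Finset.range n, (1/2:ℝ)^t * (Nn (l n (n - t - 1)) o * c.i o)) := by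
        refine ex_mono fun o => ?_
        have h := mul_le_mul_of_nonneg_right (hpt o n le_rfl) (c.i_nonneg o)
        refine h.trans (le_of_eq ?_)
        rw [add_mul, Finset.sum_mul]
        congr 1
        exact Finset.sum_congr rfl fun t _ => by ring
      refine h1.trans ?_
      rw [ex_add, ex_smul, ex_sum]
      have h2 : ∑ t ∈ Finset.range n, ex (fun o => (1/2:ℝ)^t * (Nn (l n (n - t - 1)) o * c.i o))
          ≤ ∑ t ∈ Finset.range n, (1/2:ℝ)^t * (1/4)^(n - t - 1) * ex c.i := by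
        refine Finset.sum_le_sum fun t _ => ?_
        rw [ex_smul, mul_assoc]
        refine mul_le_mul_of_nonneg_left ?_ (by positivity)
        exact hl3 n (n - t - 1) c hc hn1
      have h3 := sum_dyad n
      have h4 := mul_le_mul_of_nonneg_right h3 hci.le
      rw [add_mul, Finset.sum_mul] at h4
      linarith
    have hp0 : 0 ≤ ex (fun o => (u o)⁻¹ * c.i o) := ex_nonneg fun o =>
      mul_nonneg (inv_nonneg.mpr (by linarith [hu1 o])) (c.i_nonneg o)
    have hw1 : 0 ≤ ex (fun o => w o * c.i o) := hci.le.trans hlo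
    calc ex (fun o => (u o)⁻¹ * c.i o) * ex (fun o => w o * c.i o)
        ≤ (5 * (1/2)^n * ex c.i) * (2 * 2^n * ex c.i) :=
          mul_le_mul hup hn2 hw1 (by positivity)
      _ = 10 * ((1/2)^n * 2^n) * ex c.i ^ 2 := by ring
      _ = 10 * ex c.i ^ 2 := by
          rw [← mul_pow]; norm_num

end K9
end

alias operator := K9.operator

section
/-! majorant_list -/
namespace K10

/-! TARGET majorant_list -/

theorem mjl_eta (r C0 : ℝ) (hr : 1 < r) (hC : 1 ≤ C0) :
    ∃ η : ℝ, 0 < η ∧ 2 ^ (r - 1) * η ^ r * C0 ≤ 1 / 2 ∧ η ^ r * C0 ≤ 1 / 2 := by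
  have hC0 : 0 < C0 := by linarith
  have h2r : (0 : ℝ) < 2 ^ r := by positivity
  have h : (((2 : ℝ) ^ r * C0) ^ (-(1 / r))) ^ r = ((2 : ℝ) ^ r * C0)⁻¹ := by
    rw [← Real.rpow_mul (by positivity)]
    have e : -(1 / r) * r = -1 := by
      have : r ≠ 0 := by linarith
      field_simp
    rw [e, Real.rpow_neg_one]
  have h2 : (2 : ℝ) ≤ 2 ^ r := by
    calc (2 : ℝ) = 2 ^ (1 : ℝ) := by rw [Real.rpow_one]
      _ ≤ 2 ^ r := Real.rpow_le_rpow_of_exponent_le (by norm_num) hr.le
  refine ⟨((2 : ℝ) ^ r * C0) ^ (-(1 / r)), by positivity, ?_, ?_⟩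
  · rw [h, Real.rpow_sub_one (by norm_num)]
    apply le_of_eq
    field_simp
  · rw [h, mul_inv]
    have e : ((2 : ℝ) ^ r)⁻¹ * C0⁻¹ * C0 = ((2 : ℝ) ^ r)⁻¹ := by field_simp
    rw [e, one_div]
    exact inv_anti₀ (by norm_num) h2

theorem mjl_rpow {r a b : ℝ} (hr : 1 ≤ r) (ha : 0 ≤ a) (hb : 0 ≤ b) :
    (a + b) ^ r ≤ 2 ^ (r - 1) * (a ^ r + b ^ r) := by
  lift a to NNReal using ha
  lift b to NNReal using hb
  exact_mod_cast NNReal.rpow_add_le_mul_rpow_add_rpow a b hr

theorem mjl_point {V : Type} [Fintype V] [DecidableEq V] {f : (V → Bool) → ℝ}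
    (hf : ∀ o, 0 ≤ f o) (o : V → Bool) :
    f o ≤ (Fintype.card (V → Bool) : ℝ) * ex f := by
  have hc := (card_pos' (V := V))
  have h1 : (Fintype.card (V → Bool) : ℝ) * ex f = ∑ w, f w := by
    unfold ex
    rw [← mul_assoc, mul_inv_cancel₀ hc.ne', one_mul]
  rw [h1]
  exact Finset.single_le_sum (fun w _ => hf w) (Finset.mem_univ o)

theorem mjl_ex_pos {f : (V → Bool) → ℝ} (hf : ∀ o, 0 < f o) (c : Cyl L) :
    0 < ex (fun o => f o * c.i o) := by
  refine ex_pos_of (fun o => mul_nonneg (hf o).le (c.i_nonneg o)) c.y ?_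
  have h1 : c.i c.y = 1 := by simp [Cyl.i, ci]
  rw [h1, mul_one]
  exact hf _

/-- part (1) -/
theorem mjl_sum {r C0 η A : ℝ} (hr : 1 < r) (hC : 1 ≤ C0) (hη : 0 < η)
    (hη2 : 2 ^ (r - 1) * η ^ r * C0 ≤ 1 / 2) (hA : 0 ≤ A) (ws : ℕ → (V → Bool) → ℝ)
    (hw1 : ∀ k o, 1 ≤ ws k o) (hE : ∀ k, ex (fun o => ws k o ^ r) ≤ C0 ^ k * A) (n : ℕ) :
    ∀ j, ex (fun o => (∑ k ∈ range (n + 1), η ^ k * ws (k + j) o) ^ r) ≤ 2 ^ r * C0 ^ j * A := by
  have hC0 : 0 < C0 := by linarith
  have h2r : (2 : ℝ) ^ r = 2 * 2 ^ (r - 1) := by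
    rw [Real.rpow_sub_one (by norm_num)]; ring
  have h21 : (1 : ℝ) ≤ 2 ^ (r - 1) := Real.one_le_rpow (by norm_num) (by linarith)
  induction n with
  | zero =>
    intro j
    have e : (fun o => (∑ k ∈ range (0 + 1), η ^ k * ws (k + j) o) ^ r) =
        fun o => ws j o ^ r := by
      funext o
      simp
    rw [e]
    refine (hE j).trans ?_
    have h1 : 0 ≤ C0 ^ j * A := by positivity
    nlinarith
  | succ n ih =>
    intro j
    have hb : ∀ o, (∑ k ∈ range (n + 1 + 1), η ^ k * ws (k + j) o) ^ r ≤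
        2 ^ (r - 1) * (ws j o ^ r) + (2 ^ (r - 1) * η ^ r) *
          (∑ k ∈ range (n + 1), η ^ k * ws (k + (j + 1)) o) ^ r := by
      intro o
      rw [Finset.sum_range_succ']
      have e : ∑ k ∈ range (n + 1), η ^ (k + 1) * ws (k + 1 + j) o =
          η * ∑ k ∈ range (n + 1), η ^ k * ws (k + (j + 1)) o := by
        rw [Finset.mul_sum]
        refine Finset.sum_congr rfl fun k _ => ?_
        rw [add_assoc, add_comm 1 j]
        ring
      rw [e, pow_zero, one_mul, zero_add, add_comm]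
      have hnn : 0 ≤ ∑ k ∈ range (n + 1), η ^ k * ws (k + (j + 1)) o :=
        Finset.sum_nonneg fun k _ => by
          have := hw1 (k + (j + 1)) o
          positivity
      have hws : 0 ≤ ws j o := by have := hw1 j o; linarith
      refine (mjl_rpow hr.le hws (by positivity)).trans ?_
      rw [Real.mul_rpow hη.le hnn]
      apply le_of_eq
      ring
    refine (ex_mono hb).trans ?_
    rw [ex_add, ex_smul, ex_smul]
    have h1 := hE j
    have h2 := ih (j + 1)
    have hηr : 0 < η ^ r := by positivity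
    calc 2 ^ (r - 1) * ex (fun o => ws j o ^ r) + 2 ^ (r - 1) * η ^ r *
          ex (fun o => (∑ k ∈ range (n + 1), η ^ k * ws (k + (j + 1)) o) ^ r)
        ≤ 2 ^ (r - 1) * (C0 ^ j * A) + 2 ^ (r - 1) * η ^ r * (2 ^ r * C0 ^ (j + 1) * A) := by
          gcongr
      _ = 2 ^ (r - 1) * (C0 ^ j * A) + (2 ^ (r - 1) * η ^ r * C0) * (2 ^ r * (C0 ^ j * A)) := by
          ring
      _ ≤ 2 ^ (r - 1) * (C0 ^ j * A) + (1 / 2) * (2 ^ r * (C0 ^ j * A)) := by gcongr
      _ = 2 ^ r * C0 ^ j * A := by rw [h2r]; ring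

/-- part (3) -/
theorem mjl_A2 {η : ℝ} (hη : 0 < η) (ws : ℕ → (V → Bool) → ℝ)
    (hw1 : ∀ k o, 1 ≤ ws k o) (m : ℕ) (hm : ∀ o, η ^ (m + 1) * ws (m + 1) o ≤ 1) (c : Cyl L)
    (hc : ∀ k, ex (fun o => (ws (k + 1) o)⁻¹ * c.i o) * ex (fun o => ws k o * c.i o) ≤
      10 * ex c.i ^ 2) :
    ex (fun o => (∑ k ∈ range (m + 2), η ^ k * ws k o)⁻¹ * c.i o) *
      ex (fun o => (∑ k ∈ range (m + 2), η ^ k * ws k o) * c.i o) ≤ 20 / η * ex c.i ^ 2 := by
  have hws : ∀ k o, 0 < ws k o := fun k o => by have := hw1 k o; linarith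
  have hci := c.i_pos
  obtain ⟨q, hq⟩ : ∃ q : ℕ → ℝ, q = fun k => ex (fun o => (ws (k + 1) o)⁻¹ * c.i o) := ⟨_, rfl⟩
  have hqpos : ∀ k, 0 < q k := by
    intro k
    rw [hq]
    exact mjl_ex_pos (fun o => inv_pos.2 (hws _ o)) c
  obtain ⟨f, hf⟩ : ∃ f : ℕ → ℝ, f = fun k => η ^ (k + 1) * (ex c.i / q k) := ⟨_, rfl⟩
  have hfpos : ∀ k, 0 < f k := by
    intro k; rw [hf]
    have := hqpos k
    positivity
  obtain ⟨H, hH⟩ : ∃ H, H = ∑ k ∈ range (m + 1), f k := ⟨_, rfl⟩
  have hHpos : 0 < H := by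
    rw [hH]
    exact Finset.sum_pos (fun k _ => hfpos k) ⟨0, by simp⟩
  obtain ⟨W, hW⟩ : ∃ W : (V → Bool) → ℝ, W = fun o => ∑ k ∈ range (m + 2), η ^ k * ws k o :=
    ⟨_, rfl⟩
  obtain ⟨Wm, hWm⟩ : ∃ Wm : (V → Bool) → ℝ, Wm = fun o => ∑ k ∈ range (m + 1), η ^ k * ws k o :=
    ⟨_, rfl⟩
  have hWm1 : ∀ o, 1 ≤ Wm o := by
    intro o
    rw [hWm]
    have h1 := Finset.single_le_sum (f := fun k => η ^ k * ws k o) (s := range (m + 1))
      (fun k _ => by have := hws k o; positivity) (Finset.mem_range.2 (by omega : 0 < m + 1))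
    refine le_trans ?_ h1
    simpa using hw1 0 o
  have hWle : ∀ o, W o ≤ 2 * Wm o := by
    intro o
    have e : W o = Wm o + η ^ (m + 1) * ws (m + 1) o := by
      rw [hW, hWm]
      exact Finset.sum_range_succ _ _
    rw [e]
    have := hm o
    have := hWm1 o
    linarith
  have hWpos : ∀ o, 0 < W o := by
    intro o
    rw [hW]
    exact Finset.sum_pos (fun k _ => by have := hws k o; positivity) ⟨0, by simp⟩
  have hWge : ∀ o, ∑ k ∈ range (m + 1), η ^ (k + 1) * ws (k + 1) o ≤ W o := by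
    intro o
    rw [hW]
    have h1 := Finset.sum_range_succ' (fun k => η ^ k * ws k o) (m + 1)
    have h2 := hws 0 o
    beta_reduce at h1 ⊢
    rw [pow_zero, one_mul] at h1
    have h3 : ∑ k ∈ range (m + 2), η ^ k * ws k o = ∑ k ∈ range (m + 1 + 1), η ^ k * ws k o := rfl
    rw [h3, h1]
    linarith
  -- Sedrakyan
  have hsed : ∀ o, H ^ 2 * ((W o)⁻¹ * c.i o) ≤
      ∑ k ∈ range (m + 1), (f k ^ 2 / η ^ (k + 1)) * ((ws (k + 1) o)⁻¹ * c.i o) := by
    intro o
    have h1 := Finset.sq_sum_div_le_sum_sq_div (range (m + 1)) f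
      (g := fun k => η ^ (k + 1) * ws (k + 1) o) (fun k _ => by have := hws (k + 1) o; positivity)
    rw [← hH] at h1
    have hSpos : 0 < ∑ k ∈ range (m + 1), η ^ (k + 1) * ws (k + 1) o :=
      Finset.sum_pos (fun k _ => by have := hws (k + 1) o; positivity) ⟨0, by simp⟩
    have h2 : H ^ 2 * (W o)⁻¹ ≤ H ^ 2 / ∑ k ∈ range (m + 1), η ^ (k + 1) * ws (k + 1) o := by
      rw [div_eq_mul_inv]
      exact mul_le_mul_of_nonneg_left (inv_anti₀ hSpos (hWge o)) (by positivity)
    have h3 := mul_le_mul_of_nonneg_right (h2.trans h1) (c.i_nonneg o)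
    rw [← mul_assoc]
    refine h3.trans (le_of_eq ?_)
    rw [Finset.sum_mul]
    refine Finset.sum_congr rfl fun k _ => ?_
    have := (hws (k + 1) o).ne'
    field_simp
  have hex := ex_mono hsed
  rw [ex_smul, ex_sum] at hex
  have hex2 : ∑ k ∈ range (m + 1), ex (fun o => (f k ^ 2 / η ^ (k + 1)) *
      ((ws (k + 1) o)⁻¹ * c.i o)) = H * ex c.i := by
    rw [hH, Finset.sum_mul]
    refine Finset.sum_congr rfl fun k _ => ?_
    rw [ex_smul]
    have e : ex (fun o => (ws (k + 1) o)⁻¹ * c.i o) = q k := by rw [hq]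
    rw [e, hf]
    have := (hqpos k).ne'
    field_simp
  rw [hex2] at hex
  have hinv : H * ex (fun o => (W o)⁻¹ * c.i o) ≤ ex c.i := by
    have : H * (H * ex (fun o => (W o)⁻¹ * c.i o)) ≤ H * ex c.i := by
      refine le_trans (le_of_eq ?_) hex
      ring
    exact le_of_mul_le_mul_left this hHpos
  have hHge : η / (20 * ex c.i) * ex (fun o => W o * c.i o) ≤ H := by
    have h1 : ex (fun o => W o * c.i o) ≤ 2 * ex (fun o => Wm o * c.i o) := by
      rw [← ex_smul]
      refine ex_mono fun o => ?_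
      have := mul_le_mul_of_nonneg_right (hWle o) (c.i_nonneg o)
      linarith
    have h2 : ex (fun o => Wm o * c.i o) = ∑ k ∈ range (m + 1), η ^ k *
        ex (fun o => ws k o * c.i o) := by
      have e : (fun o => Wm o * c.i o) = fun o => ∑ k ∈ range (m + 1), η ^ k *
          (ws k o * c.i o) := by
        funext o
        rw [hWm]
        beta_reduce
        rw [Finset.sum_mul]
        refine Finset.sum_congr rfl fun k _ => ?_
        ring
      rw [e, ex_sum]
      refine Finset.sum_congr rfl fun k _ => ?_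
      rw [ex_smul]
    have h3 : ∀ k ∈ range (m + 1), η / (10 * ex c.i) * (η ^ k * ex (fun o => ws k o * c.i o)) ≤
        f k := by
      intro k _
      have h4 := hc k
      have e : ex (fun o => (ws (k + 1) o)⁻¹ * c.i o) = q k := by rw [hq]
      rw [e] at h4
      have h5 : ex (fun o => ws k o * c.i o) / (10 * ex c.i) ≤ ex c.i / q k := by
        rw [div_le_div_iff₀ (by positivity) (hqpos k)]
        linarith
      rw [hf]
      calc η / (10 * ex c.i) * (η ^ k * ex (fun o => ws k o * c.i o))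
          = η ^ (k + 1) * (ex (fun o => ws k o * c.i o) / (10 * ex c.i)) := by
            rw [pow_succ]
            ring
        _ ≤ η ^ (k + 1) * (ex c.i / q k) := by gcongr
    have h6 := Finset.sum_le_sum h3
    rw [← Finset.mul_sum, ← h2, ← hH] at h6
    calc η / (20 * ex c.i) * ex (fun o => W o * c.i o)
        ≤ η / (20 * ex c.i) * (2 * ex (fun o => Wm o * c.i o)) := by gcongr
      _ = η / (10 * ex c.i) * ex (fun o => Wm o * c.i o) := by
          field_simp
          ring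
      _ ≤ H := h6
  have hXpos : 0 < ex (fun o => (W o)⁻¹ * c.i o) := mjl_ex_pos (fun o => inv_pos.2 (hWpos o)) c
  have hfinal : ex (fun o => (W o)⁻¹ * c.i o) * ex (fun o => W o * c.i o) ≤
      20 / η * ex c.i ^ 2 := by
    have h1 : ex (fun o => (W o)⁻¹ * c.i o) * (η / (20 * ex c.i) * ex (fun o => W o * c.i o)) ≤
        ex c.i := by
      refine le_trans (mul_le_mul_of_nonneg_left hHge hXpos.le) ?_
      rw [mul_comm]
      exact hinv
    have h2 : ex (fun o => (W o)⁻¹ * c.i o) * ex (fun o => W o * c.i o) =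
        (20 * ex c.i / η) * (ex (fun o => (W o)⁻¹ * c.i o) *
          (η / (20 * ex c.i) * ex (fun o => W o * c.i o))) := by
      field_simp
    rw [h2]
    calc (20 * ex c.i / η) * (ex (fun o => (W o)⁻¹ * c.i o) *
          (η / (20 * ex c.i) * ex (fun o => W o * c.i o))) ≤ (20 * ex c.i / η) * ex c.i := by
          gcongr
      _ = 20 / η * ex c.i ^ 2 := by ring
  rw [hW] at hfinal
  exact hfinal

theorem majorant_list (r : ℝ) (hr : 1 < r) : ∃ K C : ℝ, 0 < K ∧ 0 < C ∧
    ∀ (V : Type) [LinearOrder V] [Fintype V] (L : Lev V) (all : List (Cyl L)),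
      all.Pairwise (fun a b => b.n ≤ a.n) → ∀ w : (V → Bool) → ℝ, (∀ o, 1 ≤ w o) →
      ∃ W : (V → Bool) → ℝ, (∀ o, w o ≤ W o) ∧
        ex (fun o => W o ^ r) ≤ C * ex (fun o => w o ^ r) ∧
        ∀ c ∈ all, ex (fun o => (W o)⁻¹ * c.i o) * ex (fun o => W o * c.i o)
          ≤ K * ex c.i ^ 2 := by
  obtain ⟨C0, hC0, hop⟩ := operator r hr
  obtain ⟨η, hη, hη2, hη3⟩ := mjl_eta r C0 hr hC0
  refine ⟨20 / η, 2 ^ r, by positivity, by positivity, ?_⟩
  intro V _ _ L all hall w hw
  have hstep : ∀ v : {v : (V → Bool) → ℝ // ∀ o, 1 ≤ v o}, ∃ u : {v : (V → Bool) → ℝ // ∀ o, 1 ≤ v o},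
      ex (fun o => u.1 o ^ r) ≤ C0 * ex (fun o => v.1 o ^ r) ∧
        ∀ c ∈ all, ex (fun o => (u.1 o)⁻¹ * c.i o) * ex (fun o => v.1 o * c.i o)
          ≤ 10 * ex c.i ^ 2 := by
    rintro ⟨v, hv⟩
    obtain ⟨u, hu1, hu2, hu3⟩ := hop V L all hall v hv
    exact ⟨⟨u, hu1⟩, hu2, hu3⟩
  choose f hf1 hf2 using hstep
  obtain ⟨s, hs⟩ : ∃ s : ℕ → {v : (V → Bool) → ℝ // ∀ o, 1 ≤ v o},
      s = fun k => f^[k] ⟨w, hw⟩ := ⟨_, rfl⟩
  have hs0 : (s 0).1 = w := by rw [hs]; rfl
  have hss : ∀ k, s (k + 1) = f (s k) := by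
    intro k
    rw [hs]
    exact Function.iterate_succ_apply' f k _
  obtain ⟨ws, hws⟩ : ∃ ws : ℕ → (V → Bool) → ℝ, ws = fun k => (s k).1 := ⟨_, rfl⟩
  obtain ⟨A, hA⟩ : ∃ A, A = ex (fun o => w o ^ r) := ⟨_, rfl⟩
  have hw1 : ∀ k o, 1 ≤ ws k o := by
    intro k o; rw [hws]; exact (s k).2 o
  have hA0 : 0 ≤ A := by
    rw [hA]
    exact ex_nonneg fun o => by have := hw o; positivity
  have hE : ∀ k, ex (fun o => ws k o ^ r) ≤ C0 ^ k * A := by
    intro k
    induction k with
    | zero =>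
      rw [hws, hA]
      beta_reduce
      rw [hs0, pow_zero, one_mul]
    | succ k ih =>
      have h1 := hf1 (s k)
      rw [← hss] at h1
      rw [hws] at ih ⊢
      beta_reduce at ih ⊢
      calc ex (fun o => (s (k + 1)).1 o ^ r) ≤ C0 * ex (fun o => (s k).1 o ^ r) := h1
        _ ≤ C0 * (C0 ^ k * A) := by gcongr
        _ = C0 ^ (k + 1) * A := by ring
  have hc3 : ∀ c ∈ all, ∀ k, ex (fun o => (ws (k + 1) o)⁻¹ * c.i o) * ex (fun o => ws k o * c.i o) ≤
      10 * ex c.i ^ 2 := by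
    intro c hc k
    have h1 := hf2 (s k) c hc
    rw [← hss] at h1
    rw [hws]
    exact h1
  -- choice of m
  obtain ⟨m, hm⟩ : ∃ m : ℕ, ∀ o, η ^ (m + 1) * ws (m + 1) o ≤ 1 := by
    obtain ⟨N, hN⟩ : ∃ N, N = (Fintype.card (V → Bool) : ℝ) := ⟨_, rfl⟩
    have hN0 : 0 < N := by rw [hN]; exact card_pos'
    have hlim : Filter.Tendsto (fun m : ℕ => N * A * (1 / 2 : ℝ) ^ (m + 1)) Filter.atTop
        (nhds (N * A * 0)) := by
      refine Filter.Tendsto.const_mul _ ?_
      exact (tendsto_pow_atTop_nhds_zero_of_lt_one (by norm_num) (by norm_num)).comp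
        (Filter.tendsto_add_atTop_nat 1)
    rw [mul_zero] at hlim
    obtain ⟨m, hm⟩ := (hlim.eventually_lt_const one_pos).exists
    refine ⟨m, fun o => ?_⟩
    have hwpos : 0 < ws (m + 1) o := by have := hw1 (m + 1) o; linarith
    have h1 := mjl_point (f := fun o => ws (m + 1) o ^ r)
      (fun o => by have := hw1 (m + 1) o; positivity) o
    beta_reduce at h1
    rw [← hN] at h1
    have h2 : (η ^ (m + 1) * ws (m + 1) o) ^ r ≤ 1 := by
      rw [Real.mul_rpow (by positivity) hwpos.le]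
      have e : (η ^ (m + 1)) ^ r = (η ^ r) ^ (m + 1) := by
        rw [← Real.rpow_natCast, ← Real.rpow_natCast, ← Real.rpow_mul hη.le,
          ← Real.rpow_mul hη.le, mul_comm]
      rw [e]
      have hηr : 0 < η ^ r := by positivity
      calc (η ^ r) ^ (m + 1) * ws (m + 1) o ^ r ≤ (η ^ r) ^ (m + 1) * (N * (C0 ^ (m + 1) * A)) := by
            gcongr
            exact h1.trans (mul_le_mul_of_nonneg_left (hE (m + 1)) hN0.le)
        _ = N * A * (η ^ r * C0) ^ (m + 1) := by rw [mul_pow]; ring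
        _ ≤ N * A * (1 / 2) ^ (m + 1) := by gcongr
        _ ≤ 1 := hm.le
    by_contra hcon
    push Not at hcon
    have := Real.one_lt_rpow hcon (by linarith : 0 < r)
    linarith
  refine ⟨fun o => ∑ k ∈ range (m + 2), η ^ k * ws k o, fun o => ?_, ?_, fun c hc => ?_⟩
  · have h1 := Finset.single_le_sum (f := fun k => η ^ k * ws k o) (s := range (m + 2))
      (fun k _ => by have := hw1 k o; positivity) (Finset.mem_range.2 (by omega : 0 < m + 2))
    refine le_trans ?_ h1
    rw [pow_zero, one_mul, hws]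
    beta_reduce
    rw [hs0]
  · have h1 := mjl_sum hr hC0 hη hη2 hA0 ws hw1 hE (m + 1) 0
    rw [pow_zero, mul_one, hA] at h1
    exact h1
  · exact mjl_A2 hη ws hw1 m hm c (hc3 c hc)

end K10
end

alias majorant_list := K10.majorant_list

/-- the coordinates below `x` -/
def lo' (x : V) : Finset V := Finset.univ.filter (· < x)

/-- the sets of coordinates which matter -/
def PathSet (rho : V → V → ℕ) (A : Finset V) : Prop :=
  (∃ x, A = lo' x) ∨ A = Finset.univ ∨ ∃ x a, a < x ∧ A = FF rho x a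

section
/-! exists_lev -/
namespace K11

/-! TARGET exists_lev -/

def rk8284 (u : V) : ℕ := (Finset.univ.filter (· < u)).card

theorem rk8284_lt (u : V) : rk8284 u < Fintype.card V := by
  unfold rk8284
  rw [← Finset.card_univ]
  refine Finset.card_lt_card ⟨Finset.filter_subset _ _, fun h => ?_⟩
  have := h (Finset.mem_univ u)
  simp at this

theorem rk8284_mono {u v : V} (h : u < v) : rk8284 u < rk8284 v := by
  unfold rk8284
  refine Finset.card_lt_card ⟨fun x hx => ?_, fun h' => ?_⟩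
  · simp only [Finset.mem_filter, Finset.mem_univ, true_and] at hx ⊢
    exact hx.trans h
  · have : u ∈ Finset.univ.filter (· < v) := by simp [h]
    have := h' this
    simp at this

def key8284 (rho : V → V → ℕ) (x u : V) : ℕ := rho u x * Fintype.card V + rk8284 u

theorem key8284_lt (rho : V → V → ℕ) (x u a : V) :
    key8284 rho x u < key8284 rho x a ↔ lt2 rho x u a := by
  unfold key8284 lt2
  have h1 := rk8284_lt u
  have h2 := rk8284_lt a
  constructor
  · intro h
    rcases lt_trichotomy (rho u x) (rho a x) with h3 | h3 | h3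
    · exact Or.inl h3
    · refine Or.inr ⟨h3, ?_⟩
      rw [h3] at h
      by_contra h4
      push Not at h4
      rcases h4.eq_or_lt with h5 | h5
      · rw [h5] at h; exact lt_irrefl _ h
      · have := rk8284_mono h5
        omega
    · exfalso
      have h5 : (rho a x + 1) * Fintype.card V ≤ rho u x * Fintype.card V :=
        Nat.mul_le_mul_right _ h3
      rw [add_mul, one_mul] at h5
      omega
  · rintro (h3 | ⟨h3, h4⟩)
    · have h5 : (rho u x + 1) * Fintype.card V ≤ rho a x * Fintype.card V :=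
        Nat.mul_le_mul_right _ h3
      rw [add_mul, one_mul] at h5
      omega
    · have := rk8284_mono h4
      rw [h3]
      omega

def lev8284 (rho : V → V → ℕ) (H : Sub2 rho) : Lev V where
  R n u v := u = v ∨ (u < v ∧ key8284 rho v u < n)
  refl n u := Or.inl rfl
  le n u v h := by
    rcases h with h | h
    · exact h.le
    · exact h.1.le
  trans n u v w h1 h2 := by
    rcases h1 with rfl | ⟨h1, h1'⟩
    · exact h2
    rcases h2 with rfl | ⟨h2, h2'⟩
    · exact Or.inr ⟨h1, h1'⟩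
    refine Or.inr ⟨h1.trans h2, ?_⟩
    have h3 := H.ha u v w h1 h2
    rcases le_max_iff.mp h3 with h4 | h4
    · refine lt_of_le_of_lt ?_ h1'
      unfold key8284
      have := Nat.mul_le_mul_right (Fintype.card V) h4
      omega
    · refine lt_of_le_of_lt ?_ h2'
      unfold key8284
      have := Nat.mul_le_mul_right (Fintype.card V) h4
      have := rk8284_mono h1
      omega
  tree n u v w h1 h2 h := by
    rcases h.eq_or_lt with rfl | h
    · exact Or.inl rfl
    rcases h2 with rfl | ⟨h2, h2'⟩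
    · exact h1
    rcases h1 with rfl | ⟨h1, h1'⟩
    · exact absurd (h.trans h2) (lt_irrefl _)
    refine Or.inr ⟨h, ?_⟩
    have h3 := H.hb u v w h h2
    rcases le_max_iff.mp h3 with h4 | h4
    · refine lt_of_le_of_lt ?_ h1'
      unfold key8284
      have := Nat.mul_le_mul_right (Fintype.card V) h4
      omega
    · refine lt_of_le_of_lt ?_ h2'
      unfold key8284
      have := Nat.mul_le_mul_right (Fintype.card V) h4
      have := rk8284_mono h
      omega
  mono m n u v h h1 := by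
    rcases h1 with rfl | ⟨h1, h1'⟩
    · exact Or.inl rfl
    · exact Or.inr ⟨h1, lt_of_lt_of_le h1' h⟩

theorem exists_lev (rho : V → V → ℕ) (H : Sub2 rho) :
    ∃ L : Lev V, ∀ A, PathSet rho A → ∃ n, L.Path n A := by
  classical
  refine ⟨lev8284 rho H, ?_⟩
  obtain ⟨B, hB⟩ : ∃ B : ℕ, ∀ u v : V, key8284 rho v u < B := by
    refine ⟨(Finset.univ.sup fun p : V × V => key8284 rho p.2 p.1) + 1, fun u v => ?_⟩
    exact Nat.lt_succ_of_le
      (Finset.le_sup (f := fun p : V × V => key8284 rho p.2 p.1) (Finset.mem_univ (u, v)))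
  have hle : ∀ u v : V, u ≤ v → (lev8284 rho H).R B u v := by
    intro u v h
    rcases h.eq_or_lt with h | h
    · exact Or.inl h
    · exact Or.inr ⟨h, hB u v⟩
  rintro A (⟨x, rfl⟩ | rfl | ⟨x, a, hax, rfl⟩)
  · refine ⟨B, fun u hu v hv => ?_, fun u _ v _ h => hle u v h⟩
    have h1 := (lev8284 rho H).le _ _ _ hv
    simp only [lo', Finset.mem_filter, Finset.mem_univ, true_and] at hu ⊢
    exact lt_of_le_of_lt h1 hu
  · exact ⟨B, fun u _ v _ => Finset.mem_univ _, fun u _ v _ h => hle u v h⟩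
  · have hR : ∀ u, u ∈ FF rho x a ↔ u < x ∧ (lev8284 rho H).R (key8284 rho x a) u x := by
      intro u
      rw [mem_FF, ← key8284_lt]
      constructor
      · rintro ⟨h1, h2⟩
        exact ⟨h1, Or.inr ⟨h1, h2⟩⟩
      · rintro ⟨h1, h2⟩
        rcases h2 with h2 | h2
        · exact absurd h2 h1.ne
        · exact h2
    refine ⟨key8284 rho x a, fun u hu v hv => ?_, fun u hu v hv h => ?_⟩
    · rw [hR] at hu ⊢
      exact ⟨lt_of_le_of_lt ((lev8284 rho H).le _ _ _ hv) hu.1,
        (lev8284 rho H).trans _ _ _ _ hv hu.2⟩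
    · rw [hR] at hu hv
      exact (lev8284 rho H).tree _ _ _ _ hu.2 hv.2 h

end K11
end

alias exists_lev := K11.exists_lev

section
/-! majorant -/
namespace K12

/-! TARGET majorant -/


theorem key_8285 (A : Finset V) (o : V → Bool) (f : (V → Bool) → ℝ) :
    ex (fun w => f w * ci A o w) = av A f o * ex (ci A o) := by
  rw [← ex_av A]
  have h0 : (fun w => f w * ci A o w) = fun w => ci A o w * f w := by
    funext w; ring
  rw [h0, av_mul_left (ci_dep A o)]
  have h1 : (fun w => ci A o w * av A f w) = fun w => av A f o * ci A o w := by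
    funext w
    by_cases h : ∀ u ∈ A, w u = o u
    · rw [av_dep A f w o h]; ring
    · simp [ci, h]
  rw [h1, ex_smul]

theorem list_8285 (L : Lev V) : ∃ all : List (Cyl L), all.Pairwise (fun a b => b.n ≤ a.n) ∧
    ∀ A, (∃ n, L.Path n A) → ∀ y : V → Bool, ∃ c ∈ all, c.A = A ∧ c.y = y := by
  classical
  let f : {A : Finset V // ∃ n, L.Path n A} × (V → Bool) → Cyl L :=
    fun p => ⟨p.1.2.choose, p.1.1, p.2, p.1.2.choose_spec⟩
  let all0 : List (Cyl L) := (Finset.univ : Finset ({A : Finset V // ∃ n, L.Path n A} × (V → Bool))).toList.map f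
  refine ⟨all0.mergeSort (fun a b => decide (b.n ≤ a.n)), ?_, ?_⟩
  · have h := List.pairwise_mergeSort (le := fun a b : Cyl L => decide (b.n ≤ a.n))
      (fun a b c h1 h2 => by
        simp only [decide_eq_true_eq] at h1 h2 ⊢
        exact h2.trans h1)
      (fun a b => by
        simp only [Bool.or_eq_true, decide_eq_true_eq]
        exact le_total _ _) all0
    exact h.imp (fun {a b} hab => by simpa using hab)
  · intro A hA y
    refine ⟨f (⟨A, hA⟩, y), ?_, rfl, rfl⟩
    rw [List.mem_mergeSort]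
    exact List.mem_map_of_mem (Finset.mem_toList.2 (Finset.mem_univ _))

theorem majorant (r : ℝ) (hr : 1 < r) : ∃ K C : ℝ, 0 < K ∧ 0 < C ∧
    ∀ (V : Type) [LinearOrder V] [Fintype V] (rho : V → V → ℕ), Sub2 rho →
      ∀ w : (V → Bool) → ℝ, (∀ o, 1 ≤ w o) →
      ∃ W : (V → Bool) → ℝ, (∀ o, w o ≤ W o) ∧
        ex (fun o => W o ^ r) ≤ C * ex (fun o => w o ^ r) ∧
        ∀ A, PathSet rho A → ∀ o, av A W o * av A (fun o => (W o)⁻¹) o ≤ K := by
  obtain ⟨K, C, hK, hC, hmaj⟩ := majorant_list r hr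
  refine ⟨K, C, hK, hC, ?_⟩
  intro V _ _ rho H w hw
  obtain ⟨L, hL⟩ := exists_lev rho H
  obtain ⟨all, hs, hall⟩ := list_8285 L
  obtain ⟨W, hW1, hW2, hW3⟩ := hmaj V L all hs w hw
  refine ⟨W, hW1, hW2, ?_⟩
  intro A hA o
  obtain ⟨c, hc, hcA, hcy⟩ := hall A (hL A hA) o
  have h := hW3 c hc
  have hi : c.i = ci A o := by
    funext w
    unfold Cyl.i
    rw [hcA, hcy]
  have e1 : ex (fun o => (W o)⁻¹ * c.i o) = av A (fun o => (W o)⁻¹) o * ex (ci A o) := by
    rw [hi]; exact key_8285 A o (fun o => (W o)⁻¹)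
  have e2 : ex (fun o => W o * c.i o) = av A W o * ex (ci A o) := by
    rw [hi]; exact key_8285 A o W
  rw [e1, e2, hi] at h
  have hp : 0 < ex (ci A o) := ex_ci_pos A o
  have hp2 : 0 < ex (ci A o) ^ 2 := by positivity
  refine le_of_mul_le_mul_right ?_ hp2
  calc av A W o * av A (fun o => (W o)⁻¹) o * ex (ci A o) ^ 2
      = av A (fun o => (W o)⁻¹) o * ex (ci A o) * (av A W o * ex (ci A o)) := by ring
    _ ≤ K * ex (ci A o) ^ 2 := h

end K12
end

alias majorant := K12.majorant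


end
end H550Unc
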